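import Mathlib

/-!
# Oblivious linear programs: definitions
-/

set_option autoImplicit false

namespace Pool.Agent.H657R5

/-- A nondeterministic oblivious linear program with `w` memory states: at time `t` it reads the
value at the input of the linear form `form t` and moves along `step t`. -/
structure Prog (V : Type) [AddCommGroup V] [Module (ZMod 2) V] (w : ℕ) where
  form : ℕ → (V →ₗ[ZMod 2] ZMod 2)
  step : ℕ → Fin w → ZMod 2 → Fin w → Prop
  start : Fin w
  acc : Fin w → Prop

section
variable {V : Type} [AddCommGroup V] [Module (ZMod 2) V] {w : ℕ}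

/-- `P.rel x a k v v'`: on input `x` the program can go from state `v` at time `a` to state `v'`
at time `a + k`. -/
def Prog.rel (P : Prog V w) (x : V) (a : ℕ) : ℕ → Fin w → Fin w → Prop
  | 0, v, v' => v = v'
  | k + 1, v, v' => ∃ u, P.rel x a k v u ∧ P.step (a + k) u (P.form (a + k) x) v'

/-- Acceptance after `L` steps. -/
def Prog.Accepts (P : Prog V w) (L : ℕ) (x : V) : Prop :=
  ∃ v, P.rel x 0 L P.start v ∧ P.acc v

/-- A deterministic oblivious linear program. -/
structure DProg (V : Type) [AddCommGroup V] [Module (ZMod 2) V] (w : ℕ) where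
  form : ℕ → (V →ₗ[ZMod 2] ZMod 2)
  step : ℕ → Fin w → ZMod 2 → Fin w
  start : Fin w
  out : Fin w → ZMod 2

/-- the state at time `a + k` if the state at time `a` is `v`. -/
def DProg.run (P : DProg V w) (x : V) (a : ℕ) : ℕ → Fin w → Fin w
  | 0, v => v
  | k + 1, v => P.step (a + k) (P.run x a k v) (P.form (a + k) x)

/-- the output after `L` steps. -/
def DProg.output (P : DProg V w) (L : ℕ) (x : V) : ZMod 2 := P.out (P.run x 0 L P.start)

/-- mean value -/
noncomputable def ex {V : Type} [Fintype V] (f : V → ℝ) : ℝ := (∑ x, f x) / Fintype.card V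

/-- multiplicative derivative -/
def dl (u : V) (f : V → ℝ) : V → ℝ := fun x => f (x + u) * f x

/-- additive derivative -/
def dd {M : Type} [AddCommGroup M] (u : V) (q : V → M) : V → M := fun x => q (x + u) - q x

def dds {M : Type} [AddCommGroup M] : List V → (V → M) → (V → M)
  | [], q => q
  | u :: us, q => dds us (dd u q)

/-- sign of a bit -/
def sg (a : ZMod 2) : ℝ := if a = 0 then 1 else -1

open Classical in
/-- iterated directional average -/
noncomputable def gow [Fintype V] : List (Submodule (ZMod 2) V) → (V → ℝ) → ℝ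
  | [], f => |ex f|
  | U :: Us, f => ex (fun u : U => gow Us (dl (u : V) f))

open Classical in
noncomputable def av [Fintype V] : List (Submodule (ZMod 2) V) → (List V → ℝ) → ℝ
  | [], h => h []
  | U :: Us, h => ex (fun u : U => av Us (fun us => h ((u : V) :: us)))

end

/-- product of Frobenius powers -/
def pw {K : Type} [Field K] (S : Finset ℕ) (x : K) : K := ∏ k ∈ S, x ^ 2 ^ k

/-- permanents of `(u ^ 2 ^ k)` -/
def pm {K : Type} [Field K] : List K → Finset ℕ → K
  | [], _ => 1
  | u :: us, S => ∑ k ∈ S, u ^ 2 ^ k * pm us (S.erase k)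

/-- degeneracy form -/
def qd {K : Type} [Field K] (r : ℕ) (us : List K) : K :=
  ∑ j ∈ Finset.range (r + 1), (pm us ((Finset.range (r + 1)).erase j)) ^ 2 ^ (r - j)

/-- the hard function `x ↦ Tr (x ^ (2 ^ (r + 1) - 1))` -/
noncomputable def hard {K : Type} [Field K] [Algebra (ZMod 2) K] (r : ℕ) (x : K) : ZMod 2 :=
  Algebra.trace (ZMod 2) K (x ^ (2 ^ (r + 1) - 1))

end Pool.Agent.H657R5
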