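import Mathlib
import Pool.Agent.H657R5.Defs

set_option autoImplicit false

namespace Pool.Agent.H657R5.TaskCNT

open Pool.Agent.H657R5 Polynomial

section
variable {V : Type} [AddCommGroup V] [Module (ZMod 2) V] [Fintype V]

lemma av_add (Us : List (Submodule (ZMod 2) V)) (h h' : List V → ℝ) :
    av Us (fun us => h us + h' us) = av Us h + av Us h' := by
  induction Us generalizing h h' with
  | nil => simp [av]
  | cons U Us ih =>
    simp only [av, ih, ex, Finset.sum_add_distrib, add_div]

lemma av_smul (Us : List (Submodule (ZMod 2) V)) (c : ℝ) (h : List V → ℝ) :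
    av Us (fun us => c * h us) = c * av Us h := by
  induction Us generalizing h with
  | nil => simp [av]
  | cons U Us ih =>
    simp only [av, ih, ex, ← Finset.mul_sum, mul_div_assoc]

lemma av_sum {ι : Type} (s : Finset ι) (Us : List (Submodule (ZMod 2) V)) (h : ι → List V → ℝ) :
    av Us (fun us => ∑ i ∈ s, h i us) = ∑ i ∈ s, av Us (h i) := by
  classical
  induction s using Finset.induction_on with
  | empty =>
    simp only [Finset.sum_empty]
    have := av_smul Us 0 (fun _ => 0)
    simpa using this
  | insert a s ha ih =>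
    simp only [Finset.sum_insert ha]
    rw [av_add, ih]

lemma av_mono (Us : List (Submodule (ZMod 2) V)) (h h' : List V → ℝ)
    (hh : ∀ us : List V, us.length = Us.length → h us ≤ h' us) : av Us h ≤ av Us h' := by
  induction Us generalizing h h' with
  | nil => simpa [av] using hh [] rfl
  | cons U Us ih =>
    simp only [av, ex]
    apply div_le_div_of_nonneg_right _ (by positivity)
    apply Finset.sum_le_sum
    intro u _
    apply ih
    intro us hus
    exact hh _ (by simp [hus])

open Classical in
lemma av_const (Us : List (Submodule (ZMod 2) V)) (c : ℝ) : av Us (fun _ => c) = c := by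
  induction Us with
  | nil => simp [av]
  | cons U Us ih =>
    simp only [av, ex, ih]
    rw [Finset.sum_const, nsmul_eq_mul, Finset.card_univ]
    have : (Fintype.card U : ℝ) ≠ 0 := by
      have := Fintype.card_pos (α := U)
      positivity
    field_simp

open Classical in
lemma av_swap (U : Submodule (ZMod 2) V) (Us : List (Submodule (ZMod 2) V)) (h : List V → ℝ) :
    av (U :: Us) h = av Us (fun us => ex (fun u : U => h ((u : V) :: us))) := by
  simp only [av, ex]
  rw [← av_sum]
  simp only [div_eq_inv_mul]
  rw [av_smul]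

open Classical in
/-- few elements of `U` satisfy a property which holds for at most `B` elements -/
lemma ex_ind_le (U : Submodule (ZMod 2) V) (p : V → Prop) (B d : ℕ) (hU : 2 ^ d ≤ Nat.card U)
    (hp : Nat.card {x : V // p x} ≤ B) :
    ex (fun u : U => if p (u : V) then (1 : ℝ) else 0) ≤ B / 2 ^ d := by
  simp only [ex]
  rw [Finset.sum_ite, Finset.sum_const_zero, add_zero, Finset.sum_const, nsmul_eq_mul, mul_one]
  have h1 : (Finset.univ.filter (fun u : U => p (u : V))).card ≤ B := by
    refine le_trans ?_ hp
    rw [Nat.card_eq_fintype_card, Fintype.card_subtype]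
    rw [← Finset.card_map ⟨fun u : U => (u : V), Subtype.val_injective⟩]
    apply Finset.card_le_card
    intro x hx
    simp only [Finset.mem_map, Finset.mem_filter, Finset.mem_univ, true_and] at hx ⊢
    obtain ⟨u, hu, rfl⟩ := hx
    exact hu
  have h2 : (2 : ℝ) ^ d ≤ Fintype.card U := by
    rw [Nat.card_eq_fintype_card] at hU
    exact_mod_cast hU
  have h3 : (0 : ℝ) < 2 ^ d := by positivity
  apply div_le_div₀ (by positivity) (by exact_mod_cast h1) h3 h2

end

section
variable {K : Type} [Field K] [Fintype K] [Algebra (ZMod 2) K]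

lemma card_roots_le (P : K[X]) (hP : P ≠ 0) (B : ℕ) (hB : P.natDegree ≤ B) :
    Nat.card {x : K // P.eval x = 0} ≤ B := by
  classical
  rw [Nat.card_eq_fintype_card, Fintype.card_subtype]
  refine le_trans ?_ hB
  refine le_trans ?_ (Polynomial.card_roots' P)
  refine le_trans ?_ (Multiset.toFinset_card_le _)
  apply Finset.card_le_card
  intro x hx
  simp only [Finset.mem_filter, Finset.mem_univ, true_and] at hx
  simp [hP, hx]

lemma erase_Icc (m : ℕ) : (Finset.Icc 1 (m + 1)).erase (m + 1) = Finset.Icc 1 m := by
  ext x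
  simp only [Finset.mem_erase, Finset.mem_Icc]
  omega

lemma pm_count (us : List K) (m : ℕ) (h : pm us (Finset.Icc 1 m) ≠ 0) :
    Nat.card {u : K // pm (u :: us) (Finset.Icc 1 (m + 1)) = 0} ≤ 2 ^ (m + 1) := by
  set P : K[X] := ∑ k ∈ Finset.Icc 1 (m + 1),
    C (pm us ((Finset.Icc 1 (m + 1)).erase k)) * X ^ 2 ^ k with hPd
  have hev : ∀ u, P.eval u = pm (u :: us) (Finset.Icc 1 (m + 1)) := by
    intro u
    simp only [hPd, pm, eval_finset_sum, eval_mul, eval_C, eval_pow, eval_X]
    apply Finset.sum_congr rfl
    intro k _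
    ring
  have hcoef : P.coeff (2 ^ (m + 1)) = pm us (Finset.Icc 1 m) := by
    simp only [hPd, finset_sum_coeff, coeff_C_mul, coeff_X_pow]
    rw [Finset.sum_eq_single (m + 1)]
    · rw [if_pos rfl, mul_one, erase_Icc]
    · intro k _ hk
      rw [if_neg, mul_zero]
      intro he
      exact hk (Nat.pow_right_injective (le_refl 2) he).symm
    · intro hk
      exact absurd (Finset.mem_Icc.2 ⟨by omega, le_rfl⟩) hk
  have hP0 : P ≠ 0 := by
    intro h0
    rw [h0, coeff_zero] at hcoef
    exact h hcoef.symm
  have hdeg : P.natDegree ≤ 2 ^ (m + 1) := by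
    apply natDegree_sum_le_of_forall_le
    intro k hk
    refine le_trans (natDegree_C_mul_X_pow_le _ _) ?_
    exact Nat.pow_le_pow_right (by norm_num) (Finset.mem_Icc.1 hk).2
  have := card_roots_le P hP0 _ hdeg
  simpa only [hev] using this

lemma erase2 (r : ℕ) : ((Finset.range (r + 2)).erase 0).erase (r + 1) = Finset.Icc 1 r := by
  ext x
  simp only [Finset.mem_erase, Finset.mem_Icc, Finset.mem_range]
  omega

lemma qd_count (us : List K) (r : ℕ) (h : pm us (Finset.Icc 1 r) ≠ 0) :
    Nat.card {u : K // qd (r + 1) (u :: us) = 0} ≤ 2 ^ (2 * (r + 1)) := by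
  haveI : CharP K 2 := charP_of_injective_algebraMap (algebraMap (ZMod 2) K).injective 2
  set S : Finset ℕ := Finset.range (r + 2) with hS
  set P : K[X] := ∑ j ∈ S, ∑ k ∈ S.erase j,
    C (pm us ((S.erase j).erase k) ^ 2 ^ (r + 1 - j)) * X ^ 2 ^ (k + (r + 1 - j)) with hPd
  have hev : ∀ u, P.eval u = qd (r + 1) (u :: us) := by
    intro u
    simp only [hPd, qd, pm, eval_finset_sum, eval_mul, eval_C, eval_pow, eval_X]
    apply Finset.sum_congr rfl
    intro j _
    rw [sum_pow_char_pow]
    apply Finset.sum_congr rfl
    intro k _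
    rw [mul_pow, ← pow_mul, ← pow_add]
    ring
  have hcoef : P.coeff (2 ^ (2 * (r + 1))) = (pm us (Finset.Icc 1 r)) ^ 2 ^ (r + 1) := by
    simp only [hPd, finset_sum_coeff, coeff_C_mul, coeff_X_pow]
    rw [Finset.sum_eq_single 0]
    · rw [Finset.sum_eq_single (r + 1)]
      · rw [if_pos (by congr 1; omega)]
        rw [hS, erase2]
        simp
      · intro k hk hk'
        rw [if_neg, mul_zero]
        intro he
        have := Nat.pow_right_injective (le_refl 2) he
        simp at this
        omega
      · intro hk
        simp [hS] at hk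
    · intro j hj hj0
      apply Finset.sum_eq_zero
      intro k hk
      rw [if_neg, mul_zero]
      intro he
      have := Nat.pow_right_injective (le_refl 2) he
      simp [hS] at this hj hk
      omega
    · intro hk
      simp [hS] at hk
  have hP0 : P ≠ 0 := by
    intro h0
    rw [h0, coeff_zero] at hcoef
    exact h (pow_eq_zero_iff (by positivity) |>.1 hcoef.symm)
  have hdeg : P.natDegree ≤ 2 ^ (2 * (r + 1)) := by
    apply natDegree_sum_le_of_forall_le
    intro j hj
    apply natDegree_sum_le_of_forall_le
    intro k hk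
    refine le_trans (natDegree_C_mul_X_pow_le _ _) ?_
    apply Nat.pow_le_pow_right (by norm_num)
    simp [hS] at hj hk
    omega
  have := card_roots_le P hP0 _ hdeg
  simpa only [hev] using this

open Classical in
lemma av_pm (d : ℕ) (Us : List (Submodule (ZMod 2) K)) (hd : ∀ U ∈ Us, 2 ^ d ≤ Nat.card U) :
    av Us (fun us => if pm us (Finset.Icc 1 Us.length) = 0 then (1 : ℝ) else 0)
      ≤ (2 ^ (Us.length + 1) - 2) / 2 ^ d := by
  induction Us with
  | nil => simp [av, pm]
  | cons U Us ih =>
    rw [av_swap]
    have ih' := ih (fun U' hU' => hd U' (List.mem_cons_of_mem _ hU'))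
    have hstep : av Us (fun us => ex (fun u : U =>
        if pm ((u : K) :: us) (Finset.Icc 1 (U :: Us).length) = 0 then (1 : ℝ) else 0))
        ≤ av Us (fun us => (if pm us (Finset.Icc 1 Us.length) = 0 then (1 : ℝ) else 0)
          + 2 ^ (Us.length + 1) / 2 ^ d) := by
      apply av_mono
      intro us hus
      by_cases h0 : pm us (Finset.Icc 1 Us.length) = 0
      · rw [if_pos h0]
        have : ex (fun u : U =>
          if pm ((u : K) :: us) (Finset.Icc 1 (U :: Us).length) = 0 then (1 : ℝ) else 0) ≤ 1 := by
          simp only [ex]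
          have hc : (0 : ℝ) < Fintype.card U := by
            have := Fintype.card_pos (α := U)
            positivity
          rw [div_le_one hc]
          calc _ ≤ ∑ _u : U, (1 : ℝ) := Finset.sum_le_sum (fun u _ => by split_ifs <;> norm_num)
            _ = _ := by simp
        have h2 : (0 : ℝ) ≤ 2 ^ (Us.length + 1) / 2 ^ d := by positivity
        linarith
      · rw [if_neg h0, zero_add]
        have := ex_ind_le U (fun x => pm (x :: us) (Finset.Icc 1 (Us.length + 1)) = 0)
          (2 ^ (Us.length + 1)) d (hd U List.mem_cons_self) (pm_count us Us.length h0)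
        simpa using this
    refine le_trans hstep ?_
    rw [av_add, av_const]
    have h2 : ((2 : ℝ) ^ ((U :: Us).length + 1) - 2) / 2 ^ d
        = (2 ^ (Us.length + 1) - 2) / 2 ^ d + 2 ^ (Us.length + 1) / 2 ^ d := by
      rw [List.length_cons, pow_succ (2 : ℝ) (Us.length + 1)]
      ring
    rw [h2]
    linarith

open Classical in
/-- CNT: few degenerate directions -/
theorem av_qd (r d : ℕ) (hr : 1 ≤ r) (Us : List (Submodule (ZMod 2) K)) (hl : Us.length = r)
    (hd : ∀ U ∈ Us, 2 ^ d ≤ Nat.card U) :
    av Us (fun us => if qd r us = 0 then (1 : ℝ) else 0) ≤ 2 ^ (2 * r + 1) / 2 ^ d := by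
  cases Us with
  | nil => simp at hl; omega
  | cons U Us =>
    obtain ⟨s, rfl⟩ : ∃ s, r = s + 1 := ⟨r - 1, by omega⟩
    have hl' : Us.length = s := by simpa using hl
    rw [av_swap]
    have ih' := av_pm d Us (fun U' hU' => hd U' (List.mem_cons_of_mem _ hU'))
    have hstep : av Us (fun us => ex (fun u : U =>
        if qd (s + 1) ((u : K) :: us) = 0 then (1 : ℝ) else 0))
        ≤ av Us (fun us => (if pm us (Finset.Icc 1 Us.length) = 0 then (1 : ℝ) else 0)
          + 2 ^ (2 * (s + 1)) / 2 ^ d) := by
      apply av_mono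
      intro us hus
      by_cases h0 : pm us (Finset.Icc 1 Us.length) = 0
      · rw [if_pos h0]
        have : ex (fun u : U =>
          if qd (s + 1) ((u : K) :: us) = 0 then (1 : ℝ) else 0) ≤ 1 := by
          simp only [ex]
          have hc : (0 : ℝ) < Fintype.card U := by
            have := Fintype.card_pos (α := U)
            positivity
          rw [div_le_one hc]
          calc _ ≤ ∑ _u : U, (1 : ℝ) := Finset.sum_le_sum (fun u _ => by split_ifs <;> norm_num)
            _ = _ := by simp
        have h2 : (0 : ℝ) ≤ 2 ^ (2 * (s + 1)) / 2 ^ d := by positivity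
        linarith
      · rw [if_neg h0, zero_add]
        rw [hl'] at h0
        have := ex_ind_le U (fun x => qd (s + 1) (x :: us) = 0)
          (2 ^ (2 * (s + 1))) d (hd U List.mem_cons_self) (qd_count us s h0)
        simpa using this
    refine le_trans hstep ?_
    rw [av_add, av_const]
    refine le_trans (add_le_add_left ih' _) ?_
    rw [← add_div]
    apply div_le_div_of_nonneg_right _ (by positivity)
    rw [hl']
    have h3 : (2 : ℝ) ^ (s + 1) ≤ 2 ^ (2 * (s + 1)) :=
      pow_le_pow_right₀ (by norm_num) (by omega)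
    rw [pow_succ (2 : ℝ) (2 * (s + 1))]
    linarith

end

end Pool.Agent.H657R5.TaskCNT
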