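import Mathlib
import Pool.Agent.H657R5.Defs

set_option autoImplicit false

namespace Pool.Agent.H657R5.TaskCS

open Pool.Agent.H657R5

section
variable {V : Type} [AddCommGroup V] [Module (ZMod 2) V] [Fintype V]

theorem step_sum (U : Submodule (ZMod 2) V) [Fintype U] (φ F : V → ℝ) (h1 : ∀ x, |φ x| ≤ 1)
    (h2 : ∀ u ∈ U, ∀ x, φ (x + u) = φ x) :
    (Fintype.card U : ℝ) * (∑ x, φ x * F x) ^ 2 ≤
      (Fintype.card V : ℝ) * ∑ u : U, |∑ x, dl (u : V) F x| := by
  have hM : (0 : ℝ) < Fintype.card U := by exact_mod_cast Fintype.card_pos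
  have hN : (0 : ℝ) < Fintype.card V := by exact_mod_cast Fintype.card_pos
  set H : V → ℝ := fun x => ∑ u : U, F (x + u) with hH
  have e1 : (Fintype.card U : ℝ) * ∑ x, φ x * F x = ∑ x, φ x * H x := by
    have h3 : ∀ u : U, ∑ x, φ x * F x = ∑ x, φ x * F (x + u) := by
      intro u
      rw [← Equiv.sum_comp (Equiv.addRight (u : V)) (fun x => φ x * F x)]
      apply Finset.sum_congr rfl
      intro x _
      simp only [Equiv.coe_addRight]
      rw [h2 u u.2 x]
    calc (Fintype.card U : ℝ) * ∑ x, φ x * F x = ∑ _u : U, ∑ x, φ x * F x := by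
          rw [Finset.sum_const, Finset.card_univ, nsmul_eq_mul]
      _ = ∑ u : U, ∑ x, φ x * F (x + u) := Finset.sum_congr rfl fun u _ => h3 u
      _ = ∑ x, ∑ u : U, φ x * F (x + u) := Finset.sum_comm
      _ = ∑ x, φ x * H x := by
          apply Finset.sum_congr rfl
          intro x _
          rw [hH, Finset.mul_sum]
  have e2 : (∑ x, φ x * H x) ^ 2 ≤ (Fintype.card V : ℝ) * ∑ x, H x ^ 2 := by
    refine (Finset.sum_mul_sq_le_sq_mul_sq Finset.univ φ H).trans ?_
    apply mul_le_mul_of_nonneg_right _ (Finset.sum_nonneg fun x _ => sq_nonneg _)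
    calc ∑ x, φ x ^ 2 ≤ ∑ _x : V, (1 : ℝ) := by
          apply Finset.sum_le_sum
          intro x _
          rw [← sq_abs]
          exact pow_le_one₀ (abs_nonneg _) (h1 x)
      _ = Fintype.card V := by rw [Finset.sum_const, Finset.card_univ, nsmul_eq_mul, mul_one]
  have e3 : ∑ x, H x ^ 2 = (Fintype.card U : ℝ) * ∑ u : U, ∑ x, dl (u : V) F x := by
    calc ∑ x, H x ^ 2 = ∑ x, ∑ u' : U, ∑ u : U, F (x + u) * F (x + u') := by
          apply Finset.sum_congr rfl
          intro x _
          rw [hH]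
          simp only
          rw [sq, Finset.sum_mul_sum, Finset.sum_comm]
      _ = ∑ u' : U, ∑ u : U, ∑ x, F (x + u) * F (x + u') := by
          rw [Finset.sum_comm]
          apply Finset.sum_congr rfl
          intro u' _
          rw [Finset.sum_comm]
      _ = ∑ _u' : U, ∑ u : U, ∑ x, dl (u : V) F x := by
          apply Finset.sum_congr rfl
          intro u' _
          rw [← Equiv.sum_comp (Equiv.addRight u')
            (fun u : U => ∑ x, F (x + u) * F (x + u'))]
          apply Finset.sum_congr rfl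
          intro u _
          rw [← Equiv.sum_comp (Equiv.addRight (u' : V)) (fun x => dl (u : V) F x)]
          apply Finset.sum_congr rfl
          intro x _
          simp only [Equiv.coe_addRight, dl, Submodule.coe_add]
          rw [add_assoc, add_comm (u' : V) (u : V)]
      _ = _ := by rw [Finset.sum_const, Finset.card_univ, nsmul_eq_mul]
  have e4 : ∑ u : U, ∑ x, dl (u : V) F x ≤ ∑ u : U, |∑ x, dl (u : V) F x| :=
    Finset.sum_le_sum fun u _ => le_abs_self _
  have e5 : (Fintype.card U : ℝ) * ((Fintype.card U : ℝ) * (∑ x, φ x * F x) ^ 2) ≤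
      (Fintype.card U : ℝ) * ((Fintype.card V : ℝ) * ∑ u : U, |∑ x, dl (u : V) F x|) := by
    calc (Fintype.card U : ℝ) * ((Fintype.card U : ℝ) * (∑ x, φ x * F x) ^ 2)
        = ((Fintype.card U : ℝ) * ∑ x, φ x * F x) ^ 2 := by ring
      _ = (∑ x, φ x * H x) ^ 2 := by rw [e1]
      _ ≤ (Fintype.card V : ℝ) * ∑ x, H x ^ 2 := e2
      _ = (Fintype.card V : ℝ) * ((Fintype.card U : ℝ) * ∑ u : U, ∑ x, dl (u : V) F x) := by
          rw [e3]
      _ ≤ (Fintype.card V : ℝ) * ((Fintype.card U : ℝ) * ∑ u : U, |∑ x, dl (u : V) F x|) := by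
          gcongr
      _ = _ := by ring
  exact le_of_mul_le_mul_left e5 hM

theorem step_ex (U : Submodule (ZMod 2) V) [Fintype U] (φ F : V → ℝ) (h1 : ∀ x, |φ x| ≤ 1)
    (h2 : ∀ u ∈ U, ∀ x, φ (x + u) = φ x) :
    (ex (fun x => φ x * F x)) ^ 2 ≤ ex (fun u : U => |ex (dl (u : V) F)|) := by
  have hM : (0 : ℝ) < Fintype.card U := by exact_mod_cast Fintype.card_pos
  have hN : (0 : ℝ) < Fintype.card V := by exact_mod_cast Fintype.card_pos
  have h := step_sum U φ F h1 h2
  have h3 : ex (fun u : U => |ex (dl (u : V) F)|) =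
      (∑ u : U, |∑ x, dl (u : V) F x|) / Fintype.card V / Fintype.card U := by
    unfold ex
    congr 1
    rw [Finset.sum_div]
    apply Finset.sum_congr rfl
    intro u _
    simp only [abs_div, abs_of_pos hN]
  rw [h3]
  unfold ex
  rw [div_pow, le_div_iff₀ hM, le_div_iff₀ hN, div_mul_eq_mul_div, div_mul_eq_mul_div,
    div_le_iff₀ (by positivity)]
  nlinarith

theorem pow_ex {ι : Type} [Fintype ι] [Nonempty ι] (g : ι → ℝ) (hg : ∀ i, 0 ≤ g i) (k : ℕ) :
    (ex g) ^ k ≤ ex (fun i => g i ^ k) := by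
  have hM : (0 : ℝ) < Fintype.card ι := by exact_mod_cast Fintype.card_pos
  have h := Real.pow_arith_mean_le_arith_mean_pow (Finset.univ : Finset ι)
    (fun _ => 1 / (Fintype.card ι : ℝ)) g (fun i _ => by positivity)
    (by rw [Finset.sum_const, Finset.card_univ, nsmul_eq_mul]; field_simp) (fun i _ => hg i) k
  unfold ex
  rw [← Finset.mul_sum, ← Finset.mul_sum] at h
  calc ((∑ x, g x) / (Fintype.card ι : ℝ)) ^ k = (1 / (Fintype.card ι : ℝ) * ∑ x, g x) ^ k := by
        rw [div_eq_mul_one_div, mul_comm]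
    _ ≤ 1 / (Fintype.card ι : ℝ) * ∑ x, g x ^ k := h
    _ = _ := by ring

theorem ex_mono {ι : Type} [Fintype ι] (g h : ι → ℝ) (hg : ∀ i, g i ≤ h i) : ex g ≤ ex h := by
  unfold ex
  gcongr
  exact hg _

/-- CS: Cauchy-Schwarz along subspaces -/
theorem core : ∀ (l : List (Submodule (ZMod 2) V × (V → ℝ))) (f : V → ℝ),
    (∀ q ∈ l, (∀ x, |q.2 x| ≤ 1) ∧ ∀ u ∈ q.1, ∀ x, q.2 (x + u) = q.2 x) →
    |ex (fun x => f x * (l.map (fun q => q.2 x)).prod)| ^ (2 ^ l.length)
      ≤ gow (l.map Prod.fst) f := by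
  intro l
  induction hn : l.length generalizing l with
  | zero =>
    intro f _
    obtain rfl := List.length_eq_zero_iff.1 hn
    simp [gow]
  | succ n ih =>
    intro f hl
    match l, hn, hl with
    | (U, φ) :: l, hn, hl =>
      have hn' : l.length = n := by simpa using hn
      have hU := hl (U, φ) (List.mem_cons_self)
      simp only at hU
      set F : V → ℝ := fun x => f x * (l.map (fun q => q.2 x)).prod with hF
      have e1 : ex (fun x => f x * (((U, φ) :: l).map (fun q => q.2 x)).prod) =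
          ex (fun x => φ x * F x) := by
        congr 1
        funext x
        simp only [List.map_cons, List.prod_cons, hF]
        ring
      rw [e1, List.map_cons]
      have e2 : |ex (fun x => φ x * F x)| ^ 2 ^ (n + 1) =
          ((ex (fun x => φ x * F x)) ^ 2) ^ 2 ^ n := by
        rw [← sq_abs, ← pow_mul, pow_succ, mul_comm]
      rw [e2]
      classical
      have e3 : ∀ u : U, |ex (dl (u : V) F)| ^ 2 ^ n ≤ gow (l.map Prod.fst) (dl (u : V) f) := by
        intro u
        have e4 : dl (u : V) F = fun x => dl (u : V) f x *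
            ((l.map (fun q => (q.1, dl (u : V) q.2))).map (fun q => q.2 x)).prod := by
          funext x
          simp only [dl, hF, List.map_map, Function.comp_def]
          rw [List.prod_map_mul]
          ring
        have e5 : (l.map (fun q => (q.1, dl (u : V) q.2))).map Prod.fst = l.map Prod.fst := by
          rw [List.map_map]
          rfl
        rw [e4, ← e5]
        refine ih _ (by rw [List.length_map, hn']) _ ?_
        intro q hq
        obtain ⟨q', hq', rfl⟩ := List.mem_map.1 hq
        have h := hl q' (List.mem_cons_of_mem _ hq')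
        refine ⟨fun x => ?_, fun v hv x => ?_⟩
        · simp only [dl, abs_mul]
          exact mul_le_one₀ (h.1 _) (abs_nonneg _) (h.1 _)
        · simp only [dl]
          rw [add_right_comm, h.2 v hv, h.2 v hv]
      calc ((ex (fun x => φ x * F x)) ^ 2) ^ 2 ^ n
          ≤ (ex (fun u : U => |ex (dl (u : V) F)|)) ^ 2 ^ n :=
            pow_le_pow_left₀ (sq_nonneg _) (step_ex U φ F hU.1 hU.2) _
        _ ≤ ex (fun u : U => |ex (dl (u : V) F)| ^ 2 ^ n) := pow_ex _ (fun u => abs_nonneg _) _
        _ ≤ ex (fun u : U => gow (l.map Prod.fst) (dl (u : V) f)) := ex_mono _ _ e3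
        _ = gow (U :: l.map Prod.fst) f := by
            rw [gow]

end

end Pool.Agent.H657R5.TaskCS
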