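import Mathlib
import Pool.Agent.H657R5.Defs

/-!
# DEG: nondegenerate directions give mean zero
-/

set_option autoImplicit false

namespace Pool.Agent.H657R5.TaskDEG
open Pool.Agent.H657R5

section
variable {V : Type} [AddCommGroup V]

theorem dd_comm {M : Type} [AddCommGroup M] (u y : V) (G : V → M) :
    dd y (dd u G) = dd u (dd y G) := by
  funext x
  simp only [dd]
  rw [add_right_comm x y u]
  abel

theorem dd_dds {M : Type} [AddCommGroup M] (y : V) (us : List V) :
    ∀ G : V → M, dd y (dds us G) = dds (y :: us) G := by
  induction us with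
  | nil => intro G; rfl
  | cons u us ih =>
    intro G
    show dd y (dds us (dd u G)) = dds us (dd u (dd y G))
    rw [ih (dd u G)]
    show dds us (dd y (dd u G)) = _
    rw [dd_comm]

theorem dds_map {M N : Type} [AddCommGroup M] [AddCommGroup N] (L : M →+ N) (us : List V) :
    ∀ (G : V → M) (x : V), dds us (fun x => L (G x)) x = L (dds us G x) := by
  induction us with
  | nil => intro G x; rfl
  | cons u us ih =>
    intro G x
    show dds us (dd u (fun x => L (G x))) x = L (dds us (dd u G) x)
    rw [← ih]
    congr 1
    funext z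
    simp only [dd, map_sub]

end

theorem sg_add_one (a : ZMod 2) : sg (a + 1) = - sg a := by
  revert a
  intro a
  have h : a = 0 ∨ a = 1 := by
    revert a; decide
  rcases h with rfl | rfl
  · simp [sg]
  · have : (1 : ZMod 2) + 1 = 0 := by decide
    simp [sg, this]

section
variable {K : Type} [Field K]

theorem pw_range (r : ℕ) (x : K) : pw (Finset.range (r + 1)) x = x ^ (2 ^ (r + 1) - 1) := by
  unfold pw
  rw [Finset.prod_pow_eq_pow_sum]
  congr 1
  have := Nat.geomSum_eq (le_refl 2) (r + 1)
  simpa using this

end

section
variable {K : Type} [Field K] [Fintype K] [Algebra (ZMod 2) K]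

theorem tr_sq (z : K) : Algebra.trace (ZMod 2) K (z ^ 2) = Algebra.trace (ZMod 2) K z := by
  have := Algebra.trace_eq_of_algEquiv (FiniteField.frobeniusAlgEquivOfAlgebraic (ZMod 2) K) z
  simpa using this

theorem tr_pow (m : ℕ) : ∀ z : K, Algebra.trace (ZMod 2) K (z ^ 2 ^ m) =
    Algebra.trace (ZMod 2) K z := by
  induction m with
  | zero => intro z; simp
  | succ m ih =>
    intro z
    rw [pow_succ, pow_mul, tr_sq, ih]

theorem surj_pow (r : ℕ) (z : K) : ∃ y : K, y ^ 2 ^ r = z := by
  haveI : CharP K 2 := charP_of_injective_algebraMap (algebraMap (ZMod 2) K).injective 2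
  have hinj : Function.Injective (fun y : K => y ^ 2 ^ r) := by
    intro a b hab
    have := iterateFrobenius_inj K 2 r
    apply this
    simpa [iterateFrobenius_def] using hab
  exact (Finite.injective_iff_surjective.mp hinj) z

theorem ex_hard (hder : ∀ (us : List K) (S : Finset ℕ), S.card = us.length → ∀ x : K,
      dds us (pw S) x = pm us S)
    (r : ℕ) (us : List K) (h : us.length = r) (hq : qd r us ≠ 0) :
    ex (fun x : K => sg (dds us (hard r) x)) = 0 := by
  classical
  haveI : CharP K 2 := charP_of_injective_algebraMap (algebraMap (ZMod 2) K).injective 2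
  -- the difference of `q` in the direction `y`
  have hh : (hard r : K → ZMod 2) =
      fun x => (Algebra.trace (ZMod 2) K).toAddMonoidHom (pw (Finset.range (r + 1)) x) := by
    funext x
    simp only [hard, pw_range]
    rfl
  have key : ∀ y x : K, dds us (hard r) (x + y) - dds us (hard r) x =
      Algebra.trace (ZMod 2) K (pm (y :: us) (Finset.range (r + 1))) := by
    intro y x
    have e1 : dds us (hard r) (x + y) - dds us (hard r) x = dd y (dds us (hard r)) x := rfl
    rw [e1, dd_dds, hh, dds_map, hder]
    · rfl
    · simp [h]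
  by_cases hy : ∃ y : K, Algebra.trace (ZMod 2) K (pm (y :: us) (Finset.range (r + 1))) ≠ 0
  · obtain ⟨y, hy⟩ := hy
    have h1 : Algebra.trace (ZMod 2) K (pm (y :: us) (Finset.range (r + 1))) = 1 := by
      generalize Algebra.trace (ZMod 2) K (pm (y :: us) (Finset.range (r + 1))) = a at hy
      revert a; decide
    have h2 : ∀ x : K, sg (dds us (hard r) (x + y)) = - sg (dds us (hard r) x) := by
      intro x
      have := key y x
      rw [h1] at this
      have h3 : dds us (hard r) (x + y) = dds us (hard r) x + 1 := by
        rw [← this]; abel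
      rw [h3, sg_add_one]
    have h4 : ∑ x : K, sg (dds us (hard r) x) = ∑ x : K, sg (dds us (hard r) (x + y)) :=
      (Equiv.sum_comp (Equiv.addRight y) (fun x => sg (dds us (hard r) x))).symm
    have h5 : ∑ x : K, sg (dds us (hard r) x) = 0 := by
      have h6 : ∑ x : K, sg (dds us (hard r) (x + y)) = - ∑ x : K, sg (dds us (hard r) x) := by
        rw [← Finset.sum_neg_distrib]
        exact Finset.sum_congr rfl fun x _ => h2 x
      linarith
    simp [ex, h5]
  · exfalso
    push Not at hy
    apply hq
    -- the trace of `qd * z` vanishes for all `z`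
    have hz : ∀ z : K, Algebra.trace (ZMod 2) K (qd r us * z) = 0 := by
      intro z
      obtain ⟨y, rfl⟩ := surj_pow r z
      have := hy y
      rw [← this]
      unfold qd
      show _ = Algebra.trace (ZMod 2) K (∑ k ∈ Finset.range (r + 1),
        y ^ 2 ^ k * pm us ((Finset.range (r + 1)).erase k))
      rw [Finset.sum_mul, map_sum, map_sum]
      refine Finset.sum_congr rfl fun k hk => ?_
      have hk' : k ≤ r := Nat.lt_succ_iff.mp (Finset.mem_range.mp hk)
      rw [← tr_pow (r - k) (y ^ 2 ^ k * _)]
      congr 1
      rw [mul_pow, ← pow_mul, ← pow_add, Nat.add_sub_cancel' hk', mul_comm]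
    by_contra hne
    haveI : Algebra.IsSeparable (ZMod 2) K := inferInstance
    have nd := traceForm_nondegenerate (ZMod 2) K
    have := nd.1 (qd r us) (fun z => by
      rw [Algebra.traceForm_apply]; exact hz z)
    exact hne this

end

end Pool.Agent.H657R5.TaskDEG
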