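import Mathlib
import Pool.Agent.H657R5.Defs

/-! Task DER (helper133): iterated derivatives of a product of Frobenius powers. -/

set_option autoImplicit false

namespace Pool.Agent.H657R5.TaskDER

open Pool.Agent.H657R5

section
variable {K : Type} [Field K]

/-- all derivatives of order `d` vanish -/
def Z : ℕ → (K → K) → Prop
  | 0, G => ∀ x, G x = 0
  | d + 1, G => ∀ u, Z d (dd u G)

theorem Z_add : ∀ (d : ℕ) (G H : K → K), Z d G → Z d H → Z d (fun x => G x + H x)
  | 0, G, H, hG, hH => fun x => by
    have h1 : G x = 0 := hG x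
    have h2 : H x = 0 := hH x
    show G x + H x = 0
    rw [h1, h2, add_zero]
  | d + 1, G, H, hG, hH => fun u => by
    have h := Z_add d _ _ (hG u) (hH u)
    have e : dd u (fun x => G x + H x) = fun x => dd u G x + dd u H x := by
      funext x
      simp only [dd]
      ring
    rw [e]
    exact h

theorem Z_mul : ∀ (d : ℕ) (c : K) (G : K → K), Z d G → Z d (fun x => c * G x)
  | 0, c, G, hG => fun x => by
    have h1 : G x = 0 := hG x
    show c * G x = 0
    rw [h1, mul_zero]
  | d + 1, c, G, hG => fun u => by
    have h := Z_mul d c _ (hG u)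
    have e : dd u (fun x => c * G x) = fun x => c * dd u G x := by
      funext x
      simp only [dd]
      ring
    rw [e]
    exact h

theorem Z_succ : ∀ (d : ℕ) (G : K → K), Z d G → Z (d + 1) G
  | 0, G, hG => fun u x => by
    have h1 : ∀ y, G y = 0 := hG
    show G (x + u) - G x = 0
    rw [h1, h1, sub_zero]
  | d + 1, G, hG => fun u => Z_succ d _ (hG u)

theorem Z_shift : ∀ (d : ℕ) (u : K) (G : K → K), Z d G → Z d (fun x => G (x + u))
  | 0, u, G, hG => fun x => hG _
  | d + 1, u, G, hG => fun v => by
    have h := Z_shift d u _ (hG v)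
    have e : dd v (fun x => G (x + u)) = fun x => dd v G (x + u) := by
      funext x
      simp only [dd]
      rw [add_right_comm]
    rw [e]
    exact h

theorem Z_mulA (A : K → K) (hA : ∀ x y, A (x + y) = A x + A y) :
    ∀ (d : ℕ) (G : K → K), Z d G → Z (d + 1) (fun x => A x * G x)
  | 0, G, hG => fun u x => by
    have h1 : ∀ y, G y = 0 := hG
    show A (x + u) * G (x + u) - A x * G x = 0
    rw [h1, h1, mul_zero, mul_zero, sub_zero]
  | d + 1, G, hG => fun u => by
    have h1 := Z_mulA A hA d _ (hG u)
    have h2 := Z_mul (d + 1) (A u) _ (Z_shift (d + 1) u G hG)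
    have h3 := Z_add (d + 1) _ _ h1 h2
    have e : dd u (fun x => A x * G x) = fun x => A x * dd u G x + A u * G (x + u) := by
      funext x
      simp only [dd, hA]
      ring
    rw [e]
    exact h3

theorem Z_zero (d : ℕ) : Z d (fun _ : K => (0 : K)) := by
  induction d with
  | zero => intro x; rfl
  | succ d ih => exact Z_succ d _ ih

theorem frob [CharP K 2] (k : ℕ) (x y : K) : (x + y) ^ 2 ^ k = x ^ 2 ^ k + y ^ 2 ^ k :=
  add_pow_char_pow x y 2 k

theorem pw_insert (a : ℕ) (S : Finset ℕ) (ha : a ∉ S) (x : K) :
    pw (insert a S) x = x ^ 2 ^ a * pw S x := by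
  unfold pw
  rw [Finset.prod_insert ha]

theorem Z_pw [CharP K 2] (S : Finset ℕ) : Z (S.card + 1) (pw (K := K) S) := by
  classical
  induction S using Finset.induction_on with
  | empty =>
    intro u x
    simp [dd, pw]
  | insert a S ha ih =>
    rw [Finset.card_insert_of_notMem ha]
    have h := Z_mulA (fun x : K => x ^ 2 ^ a) (frob a) _ _ ih
    have e : pw (K := K) (insert a S) = fun x => x ^ 2 ^ a * pw S x := by
      funext x
      exact pw_insert a S ha x
    rw [e]
    exact h

/-- the error term -/
def EE (S : Finset ℕ) (u x : K) : K :=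
  dd u (pw S) x - ∑ k ∈ S, u ^ 2 ^ k * pw (S.erase k) x

theorem EE_insert [CharP K 2] (a : ℕ) (S : Finset ℕ) (ha : a ∉ S) (u x : K) :
    EE (insert a S) u x = x ^ 2 ^ a * EE S u x + u ^ 2 ^ a * dd u (pw S) x := by
  unfold EE
  rw [Finset.sum_insert ha, Finset.erase_insert ha]
  have h1 : ∑ k ∈ S, u ^ 2 ^ k * pw ((insert a S).erase k) x =
      x ^ 2 ^ a * ∑ k ∈ S, u ^ 2 ^ k * pw (S.erase k) x := by
    rw [Finset.mul_sum]
    refine Finset.sum_congr rfl fun k hk => ?_
    have hka : a ≠ k := fun h => ha (h ▸ hk)
    rw [Finset.erase_insert_of_ne hka, pw_insert a _ (fun h => ha (Finset.mem_of_mem_erase h))]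
    ring
  rw [h1]
  simp only [dd]
  rw [pw_insert a S ha, pw_insert a S ha, frob]
  ring

theorem Z_EE [CharP K 2] (S : Finset ℕ) (u : K) :
    (S.card = 0 → ∀ x, EE S u x = 0) ∧ ∀ n, S.card = n + 1 → Z n (EE S u) := by
  classical
  induction S using Finset.induction_on with
  | empty =>
    refine ⟨fun _ x => ?_, fun n h => ?_⟩
    · simp [EE, dd, pw]
    · simp at h
  | insert a S ha ih =>
    rw [Finset.card_insert_of_notMem ha]
    refine ⟨fun h => by omega, fun n h => ?_⟩
    have hn : S.card = n := by omega
    have e : EE (K := K) (insert a S) u = fun x => x ^ 2 ^ a * EE S u x + u ^ 2 ^ a * dd u (pw S) x := by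
      funext x
      exact EE_insert a S ha u x
    rw [e]
    have h2 : Z n (fun x => u ^ 2 ^ a * dd u (pw (K := K) S) x) := by
      refine Z_mul n _ _ ?_
      have := Z_pw (K := K) S
      rw [hn] at this
      exact this u
    have h1 : Z n (fun x : K => x ^ 2 ^ a * EE S u x) := by
      cases n with
      | zero =>
        intro x
        show x ^ 2 ^ a * EE S u x = 0
        rw [ih.1 hn x, mul_zero]
      | succ m => exact Z_mulA (fun x : K => x ^ 2 ^ a) (frob a) m _ (ih.2 m hn)
    exact Z_add n _ _ h1 h2

theorem dds_add : ∀ (us : List K) (G H : K → K) (x : K),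
    dds us (fun x => G x + H x) x = dds us G x + dds us H x
  | [], G, H, x => rfl
  | u :: us, G, H, x => by
    have e : dd u (fun x => G x + H x) = fun x => dd u G x + dd u H x := by
      funext x
      simp only [dd]
      ring
    simp only [dds]
    rw [e]
    exact dds_add us _ _ x

theorem dds_mul : ∀ (us : List K) (c : K) (G : K → K) (x : K),
    dds us (fun x => c * G x) x = c * dds us G x
  | [], c, G, x => rfl
  | u :: us, c, G, x => by
    have e : dd u (fun x => c * G x) = fun x => c * dd u G x := by
      funext x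
      simp only [dd]
      ring
    simp only [dds]
    rw [e]
    exact dds_mul us _ _ x

theorem dds_zero : ∀ (us : List K) (x : K), dds us (fun _ => (0 : K)) x = 0
  | [], x => rfl
  | u :: us, x => by
    have e : dd u (fun _ : K => (0 : K)) = fun _ => 0 := by
      funext x
      simp only [dd, sub_zero]
    simp only [dds]
    rw [e]
    exact dds_zero us x

theorem dds_sum (us : List K) (S : Finset ℕ) (G : ℕ → K → K) (x : K) :
    dds us (fun x => ∑ k ∈ S, G k x) x = ∑ k ∈ S, dds us (G k) x := by
  classical
  induction S using Finset.induction_on with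
  | empty =>
    simp only [Finset.sum_empty]
    exact dds_zero us x
  | insert a S ha ih =>
    rw [Finset.sum_insert ha, ← ih, ← dds_add]
    congr 1
    funext y
    rw [Finset.sum_insert ha]

theorem dds_Z : ∀ (us : List K) (G : K → K), Z us.length G → ∀ x, dds us G x = 0
  | [], G, h, x => h x
  | u :: us, G, h, x => dds_Z us _ (h u) x

theorem main [CharP K 2] : ∀ (us : List K) (S : Finset ℕ), S.card = us.length → ∀ x : K,
    dds us (pw S) x = pm us S
  | [], S, h, x => by
    have hS : S = ∅ := Finset.card_eq_zero.mp h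
    subst hS
    simp [dds, pw, pm]
  | u :: us, S, h, x => by
    have hE := (Z_EE (K := K) S u).2 us.length (by simpa using h)
    have e : dd u (pw (K := K) S) =
        fun x => (∑ k ∈ S, u ^ 2 ^ k * pw (S.erase k) x) + EE S u x := by
      funext y
      unfold EE
      ring
    simp only [dds, pm]
    rw [e, dds_add, dds_Z us _ hE, add_zero, dds_sum]
    refine Finset.sum_congr rfl fun k hk => ?_
    rw [dds_mul, main us (S.erase k) (by
      rw [Finset.card_erase_of_mem hk, h]
      simp) x]

end

variable {K : Type} [Field K] [Fintype K] [Algebra (ZMod 2) K]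

/-- DER: iterated derivatives of a product of Frobenius powers -/
theorem dds_pw (us : List K) (S : Finset ℕ) (h : S.card = us.length) (x : K) :
    dds us (pw S) x = pm us S := by
  have : CharP K 2 := charP_of_injective_algebraMap (algebraMap (ZMod 2) K).injective 2
  exact main us S h x

end Pool.Agent.H657R5.TaskDER
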