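import Mathlib
import Pool.Agent.H657R5.Defs

set_option autoImplicit false

namespace Pool.Agent.H657R5.TaskDPR

open Pool.Agent.H657R5

theorem segs (m : ℕ) : ∀ (r L : ℕ), L ≤ r * m →
    ∃ ks : List ℕ, ks.length = r ∧ (∀ k ∈ ks, k ≤ m) ∧ ks.sum = L := by
  intro r
  induction r with
  | zero =>
    intro L hL
    rw [zero_mul] at hL
    refine ⟨[], rfl, by simp, ?_⟩
    simp only [List.sum_nil]
    omega
  | succ r ih =>
    intro L hL
    obtain ⟨ks, h1, h2, h3⟩ := ih (L - min L m) (by
      rw [add_mul, one_mul] at hL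
      rcases le_total L m with h | h
      · rw [min_eq_left h]; omega
      · rw [min_eq_right h]; omega)
    refine ⟨min L m :: ks, by simp [h1], ?_, ?_⟩
    · intro k hk
      rcases List.mem_cons.1 hk with h | h
      · rw [h]; exact min_le_right _ _
      · exact h2 k h
    · rw [List.sum_cons, h3]
      have := min_le_left L m
      omega

section
variable {V : Type} [AddCommGroup V] [Module (ZMod 2) V] {w : ℕ}

theorem run_add (P : DProg V w) (x : V) (a k : ℕ) (v : Fin w) :
    ∀ l, P.run x a (k + l) v = P.run x (a + k) l (P.run x a k v) := by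
  intro l
  induction l with
  | zero => rfl
  | succ l ih =>
    rw [← add_assoc]
    show P.step (a + (k + l)) (P.run x a (k + l) v) (P.form (a + (k + l)) x) =
      P.step (a + k + l) (P.run x (a + k) l (P.run x a k v)) (P.form (a + k + l) x)
    rw [ih, add_assoc]

theorem run_congr (P : DProg V w) (x y : V) (a : ℕ) (v : Fin w) :
    ∀ k, (∀ i < k, P.form (a + i) x = P.form (a + i) y) → P.run x a k v = P.run y a k v := by
  intro k
  induction k with
  | zero => intro _; rfl
  | succ k ih =>
    intro h
    show P.step (a + k) (P.run x a k v) (P.form (a + k) x) =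
      P.step (a + k) (P.run y a k v) (P.form (a + k) y)
    rw [ih fun i hi => h i (hi.trans (Nat.lt_succ_self k)), h k (Nat.lt_succ_self k)]

/-- common kernel of the forms of a segment -/
noncomputable def ck (P : DProg V w) (a k : ℕ) : Submodule (ZMod 2) V :=
  LinearMap.ker (LinearMap.pi fun i : Fin k => P.form (a + i))

theorem ck_form (P : DProg V w) (a k : ℕ) {u : V} (hu : u ∈ ck P a k) (x : V) (i : ℕ)
    (hi : i < k) : P.form (a + i) (x + u) = P.form (a + i) x := by
  have h1 : (LinearMap.pi fun i : Fin k => P.form (a + i)) u = 0 := hu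
  have h2 := congrFun h1 ⟨i, hi⟩
  have h3 : P.form (a + i) u = 0 := h2
  rw [map_add, h3, add_zero]

theorem ck_card [Finite V] (P : DProg V w) (a k n m d : ℕ)
    (hn : Module.finrank (ZMod 2) V = n) (hmd : m + d ≤ n) (hk : k ≤ m) :
    2 ^ d ≤ Nat.card (ck P a k) := by
  rw [Module.natCard_eq_pow_finrank (K := ZMod 2), Nat.card_zmod]
  apply Nat.pow_le_pow_right two_pos
  have h1 := LinearMap.finrank_range_add_finrank_ker (LinearMap.pi fun i : Fin k => P.form (a + i))
  have h2 := Submodule.finrank_le
    (LinearMap.range (LinearMap.pi fun i : Fin k => P.form (a + i)))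
  rw [Module.finrank_fintype_fun_eq_card, Fintype.card_fin] at h2
  rw [hn] at h1
  unfold ck
  omega

variable [Fintype V]

theorem ex_const (F : V → ℝ) (c : ℝ) : ex (fun x => F x * c) = ex F * c := by
  unfold ex
  rw [← Finset.sum_mul]
  ring

theorem ex_sum {ι : Type} (s : Finset ι) (F : ι → V → ℝ) :
    ex (fun x => ∑ i ∈ s, F i x) = ∑ i ∈ s, ex (F i) := by
  unfold ex
  rw [Finset.sum_comm, Finset.sum_div]

theorem abs_sg (a : ZMod 2) : |sg a| = 1 := by
  unfold sg
  split_ifs
  · exact abs_one
  · rw [abs_neg, abs_one]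

theorem main (n m d : ℕ) (hn : Module.finrank (ZMod 2) V = n) (hmd : m + d ≤ n)
    (f : V → ℝ) (β : ℝ) (P : DProg V w) (r : ℕ)
    (hβ : ∀ l : List (Submodule (ZMod 2) V × (V → ℝ)), l.length = r →
      (∀ q ∈ l, 2 ^ d ≤ Nat.card q.1 ∧ (∀ x, |q.2 x| ≤ 1) ∧
        ∀ u ∈ q.1, ∀ x, q.2 (x + u) = q.2 x) →
      |ex (fun x => f x * (l.map (fun q => q.2 x)).prod)| ≤ β) :
    ∀ (ks : List ℕ), (∀ k ∈ ks, k ≤ m) → ∀ (a : ℕ) (v : Fin w)
      (l : List (Submodule (ZMod 2) V × (V → ℝ))), l.length + ks.length = r →
      (∀ q ∈ l, 2 ^ d ≤ Nat.card q.1 ∧ (∀ x, |q.2 x| ≤ 1) ∧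
        ∀ u ∈ q.1, ∀ x, q.2 (x + u) = q.2 x) →
      |ex (fun x => f x * (l.map (fun q => q.2 x)).prod * sg (P.out (P.run x a ks.sum v)))| ≤
        (w : ℝ) ^ ks.length * β := by
  intro ks
  induction ks with
  | nil =>
    intro _ a v l hl hq
    have h1 : (fun x => f x * (l.map (fun q => q.2 x)).prod *
        sg (P.out (P.run x a ([] : List ℕ).sum v))) =
        fun x => (f x * (l.map (fun q => q.2 x)).prod) * sg (P.out v) := rfl
    rw [h1, ex_const, abs_mul, abs_sg, mul_one, List.length_nil, pow_zero, one_mul]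
    exact hβ l (by simpa using hl) hq
  | cons k ks ih =>
    intro hks a v l hl hq
    have hk : k ≤ m := hks k (List.mem_cons_self ..)
    have hks' : ∀ k' ∈ ks, k' ≤ m := fun k' h => hks k' (List.mem_cons_of_mem _ h)
    classical
    -- indicator of the state after the segment
    let φ : Fin w → V → ℝ := fun u x => if P.run x a k v = u then 1 else 0
    have h1 : (fun x => f x * (l.map (fun q => q.2 x)).prod *
        sg (P.out (P.run x a (k :: ks).sum v))) =
        fun x => ∑ u : Fin w, f x * (((ck P a k, φ u) :: l).map (fun q => q.2 x)).prod *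
          sg (P.out (P.run x (a + k) ks.sum u)) := by
      funext x
      rw [List.sum_cons, run_add, Finset.sum_eq_single (P.run x a k v)]
      · simp only [List.map_cons, List.prod_cons, φ, if_true, one_mul]
      · intro u _ hu
        have h2 : φ u x = 0 := if_neg (Ne.symm hu)
        simp only [List.map_cons, List.prod_cons]
        rw [h2]
        ring
      · intro h
        exact absurd (Finset.mem_univ _) h
    rw [h1, ex_sum]
    have h2 : ∀ u : Fin w, |ex (fun x => f x *
        (((ck P a k, φ u) :: l).map (fun q => q.2 x)).prod *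
          sg (P.out (P.run x (a + k) ks.sum u)))| ≤ (w : ℝ) ^ ks.length * β := by
      intro u
      refine ih hks' (a + k) u ((ck P a k, φ u) :: l) ?_ ?_
      · rw [List.length_cons] at hl ⊢
        omega
      · intro q hq'
        rcases List.mem_cons.1 hq' with h | h
        · rw [h]
          refine ⟨ck_card P a k n m d hn hmd hk, fun x => ?_, fun u' hu' x => ?_⟩
          · show |φ u x| ≤ 1
            simp only [φ]
            split_ifs
            · rw [abs_one]
            · rw [abs_zero]; exact zero_le_one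
          · show φ u (x + u') = φ u x
            simp only [φ]
            rw [run_congr P (x + u') x a v k fun i hi => ck_form P a k hu' x i hi]
        · exact hq q h
    calc |∑ u : Fin w, ex (fun x => f x *
          (((ck P a k, φ u) :: l).map (fun q => q.2 x)).prod *
            sg (P.out (P.run x (a + k) ks.sum u)))|
        ≤ ∑ u : Fin w, |ex (fun x => f x *
          (((ck P a k, φ u) :: l).map (fun q => q.2 x)).prod *
            sg (P.out (P.run x (a + k) ks.sum u)))| := Finset.abs_sum_le_sum_abs _ _
      _ ≤ ∑ _u : Fin w, (w : ℝ) ^ ks.length * β := Finset.sum_le_sum fun u _ => h2 u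
      _ = (w : ℝ) ^ (k :: ks).length * β := by
          rw [Finset.sum_const, Finset.card_univ, Fintype.card_fin, nsmul_eq_mul,
            List.length_cons, pow_succ]
          ring

end

section
variable {V : Type} [AddCommGroup V] [Module (ZMod 2) V] [Fintype V]

/-- DPR: deterministic programs, average case. -/
theorem dprog (n r m d w L : ℕ) (hn : Module.finrank (ZMod 2) V = n) (hmd : m + d ≤ n)
    (hL : L ≤ r * m) (f : V → ℝ) (β : ℝ)
    (hβ : ∀ l : List (Submodule (ZMod 2) V × (V → ℝ)), l.length = r →
      (∀ q ∈ l, 2 ^ d ≤ Nat.card q.1 ∧ (∀ x, |q.2 x| ≤ 1) ∧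
        ∀ u ∈ q.1, ∀ x, q.2 (x + u) = q.2 x) →
      |ex (fun x => f x * (l.map (fun q => q.2 x)).prod)| ≤ β)
    (P : DProg V w) :
    |ex (fun x => f x * sg (P.output L x))| ≤ w ^ r * β := by
  obtain ⟨ks, h1, h2, h3⟩ := segs m r L hL
  have h := main n m d hn hmd f β P r hβ ks h2 0 P.start [] (by simpa using h1) (by simp)
  rw [h1, h3] at h
  simp only [List.map_nil, List.prod_nil, mul_one] at h
  exact h

end

end Pool.Agent.H657R5.TaskDPR
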