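import Mathlib
import Pool.Agent.H657R5.Defs

set_option autoImplicit false

namespace Pool.Agent.H657R5.TaskGOW

open Pool.Agent.H657R5

theorem sg_sub (a b : ZMod 2) : sg a * sg b = sg (a - b) := by
  have h2 : ∀ a : ZMod 2, a = 0 ∨ a = 1 := by decide
  rcases h2 a with rfl | rfl <;> rcases h2 b with rfl | rfl <;> simp [sg]

section
variable {V : Type} [AddCommGroup V] [Module (ZMod 2) V] [Fintype V]

omit [Module (ZMod 2) V] [Fintype V] in
theorem dl_sg (u : V) (q : V → ZMod 2) :
    dl u (fun x => sg (q x)) = fun x => sg (dd u q x) := by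
  funext x
  exact sg_sub _ _

/-- GOW -/
theorem gow_sg (Us : List (Submodule (ZMod 2) V)) (q : V → ZMod 2) :
    gow Us (fun x => sg (q x)) = av Us (fun us => |ex (fun x => sg (dds us q x))|) := by
  induction Us generalizing q with
  | nil => rfl
  | cons U Us ih =>
    unfold gow av
    refine congrArg _ ?_
    funext u
    rw [dl_sg, ih]
    rfl

theorem av_mono (Us : List (Submodule (ZMod 2) V)) (h h' : List V → ℝ)
    (hh : ∀ us : List V, us.length = Us.length → h us ≤ h' us) : av Us h ≤ av Us h' := by
  induction Us generalizing h h' with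
  | nil => exact hh [] rfl
  | cons U Us ih =>
    unfold av ex
    refine div_le_div_of_nonneg_right ?_ (Nat.cast_nonneg _)
    refine Finset.sum_le_sum fun u _ => ?_
    refine ih _ _ fun us hus => ?_
    exact hh _ (by simp [hus])

end

end Pool.Agent.H657R5.TaskGOW
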