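import Mathlib
import Pool.Agent.H657R5.Defs

/-!
# Nondeterministic oblivious linear programs
-/

set_option autoImplicit false

namespace Pool.Agent.H657R5.TaskNPR

open Pool.Agent.H657R5

section
variable {V : Type} [AddCommGroup V] [Module (ZMod 2) V] {w : ℕ}

theorem rel_add (P : Prog V w) (x : V) (a k : ℕ) (v v' : Fin w) : ∀ l : ℕ,
    P.rel x a (k + l) v v' ↔ ∃ u, P.rel x a k v u ∧ P.rel x (a + k) l u v' := by
  intro l
  induction l generalizing v' with
  | zero =>
    constructor
    · intro h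
      exact ⟨v', h, rfl⟩
    · rintro ⟨u, h1, h2⟩
      have h2' : u = v' := h2
      rw [← h2']
      exact h1
  | succ l ih =>
    have e1 : P.rel x a (k + (l + 1)) v v' ↔
        ∃ u, P.rel x a (k + l) v u ∧ P.step (a + (k + l)) u (P.form (a + (k + l)) x) v' := Iff.rfl
    have e2 : ∀ u, P.rel x (a + k) (l + 1) u v' ↔
        ∃ u', P.rel x (a + k) l u u' ∧ P.step (a + k + l) u' (P.form (a + k + l) x) v' :=
      fun u => Iff.rfl
    rw [e1]
    simp only [e2, ih, ← Nat.add_assoc]
    constructor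
    · rintro ⟨u, ⟨u', h1, h2⟩, h3⟩
      exact ⟨u', h1, u, h2, h3⟩
    · rintro ⟨u', h1, u, h2, h3⟩
      exact ⟨u, ⟨u', h1, h2⟩, h3⟩

theorem rel_congr (P : Prog V w) {x y : V} (a : ℕ) (v v' : Fin w) : ∀ k : ℕ,
    (∀ i < k, P.form (a + i) x = P.form (a + i) y) → (P.rel x a k v v' ↔ P.rel y a k v v') := by
  intro k
  induction k generalizing v' with
  | zero => intro _; exact Iff.rfl
  | succ k ih =>
    intro h
    have e1 : ∀ z, P.rel z a (k + 1) v v' ↔
        ∃ u, P.rel z a k v u ∧ P.step (a + k) u (P.form (a + k) z) v' := fun z => Iff.rfl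
    rw [e1, e1]
    refine exists_congr fun u => ?_
    rw [ih u fun i hi => h i (by omega), h k (by omega)]

/-- the common kernel of the forms read from time `a` to time `a + k` -/
noncomputable def ker (P : Prog V w) (a k : ℕ) : Submodule (ZMod 2) V :=
  LinearMap.ker (LinearMap.pi (fun i : Fin k => P.form (a + i)))

theorem form_add (P : Prog V w) {a k : ℕ} {u : V} (hu : u ∈ ker P a k) (x : V) :
    ∀ i < k, P.form (a + i) (x + u) = P.form (a + i) x := by
  intro i hi
  have h1 : (LinearMap.pi (fun i : Fin k => P.form (a + i))) u = 0 := hu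
  have h2 := congrFun h1 ⟨i, hi⟩
  rw [LinearMap.pi_apply] at h2
  rw [map_add]
  simp only at h2
  rw [h2]
  simp

theorem card_ker [Fintype V] (P : Prog V w) (a k : ℕ) {n m d : ℕ}
    (hn : Module.finrank (ZMod 2) V = n) (hmd : m + d ≤ n) (hk : k ≤ m) :
    2 ^ d ≤ Nat.card (ker P a k) := by
  have h1 := LinearMap.finrank_range_add_finrank_ker
    (LinearMap.pi (fun i : Fin k => P.form (a + i)))
  have h2 : Module.finrank (ZMod 2)
      (LinearMap.range (LinearMap.pi (fun i : Fin k => P.form (a + i)))) ≤ k := by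
    refine (Submodule.finrank_le _).trans ?_
    rw [Module.finrank_fin_fun]
  rw [hn] at h1
  have h3 : d ≤ Module.finrank (ZMod 2) (ker P a k) := by
    unfold ker
    omega
  have h4 : Nat.card (ker P a k) = Nat.card (ZMod 2) ^ Module.finrank (ZMod 2) (ker P a k) :=
    Module.natCard_eq_pow_finrank
  rw [h4, Nat.card_zmod]
  exact Nat.pow_le_pow_right (by norm_num) h3

theorem exists_ks (m : ℕ) : ∀ r L : ℕ, L ≤ r * m →
    ∃ ks : List ℕ, ks.length = r ∧ (∀ k ∈ ks, k ≤ m) ∧ ks.sum = L := by
  intro r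
  induction r with
  | zero =>
    intro L hL
    refine ⟨[], rfl, by simp, ?_⟩
    simp at hL ⊢
    omega
  | succ r ih =>
    intro L hL
    rw [add_mul, one_mul] at hL
    obtain ⟨ks, h1, h2, h3⟩ := ih (L - min m L) (by omega)
    refine ⟨min m L :: ks, by simp [h1], ?_, ?_⟩
    · intro k hk
      rcases List.mem_cons.1 hk with rfl | hk
      · exact min_le_left _ _
      · exact h2 k hk
    · rw [List.sum_cons, h3]
      omega

theorem prod01 (l : List (Submodule (ZMod 2) V × (V → ℝ)))
    (h : ∀ q ∈ l, ∀ x, q.2 x = 0 ∨ q.2 x = 1) (x : V) :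
    (l.map (fun q => q.2 x)).prod = 0 ∨ (l.map (fun q => q.2 x)).prod = 1 := by
  induction l with
  | nil => right; simp
  | cons q l ih =>
    rw [List.map_cons, List.prod_cons]
    rcases h q (by simp) x with h1 | h1
    · left; rw [h1, zero_mul]
    · rcases ih (fun q hq => h q (by simp [hq])) with h2 | h2
      · left; rw [h2, mul_zero]
      · right; rw [h1, h2, one_mul]

open Classical in
theorem main [Fintype V] {n r m d : ℕ} (hn : Module.finrank (ZMod 2) V = n) (hmd : m + d ≤ n)
    (f : V → ℝ) (hf : ∀ x, f x = 1 ∨ f x = -1) (β : ℝ)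
    (hβ : ∀ l : List (Submodule (ZMod 2) V × (V → ℝ)), l.length = r →
      (∀ q ∈ l, 2 ^ d ≤ Nat.card q.1 ∧ (∀ x, |q.2 x| ≤ 1) ∧
        ∀ u ∈ q.1, ∀ x, q.2 (x + u) = q.2 x) →
      |ex (fun x => f x * (l.map (fun q => q.2 x)).prod)| ≤ β)
    (P : Prog V w) (c : ℝ) : ∀ (ks : List ℕ), (∀ k ∈ ks, k ≤ m) →
    ∀ (a : ℕ) (v : Fin w) (l : List (Submodule (ZMod 2) V × (V → ℝ))),
      l.length + ks.length = r →
      (∀ q ∈ l, 2 ^ d ≤ Nat.card q.1 ∧ (∀ x, q.2 x = 0 ∨ q.2 x = 1) ∧
        ∀ u ∈ q.1, ∀ x, q.2 (x + u) = q.2 x) →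
      (∀ x, (l.map (fun q => q.2 x)).prod = 1 → (∃ v', P.rel x a ks.sum v v' ∧ P.acc v') →
        f x = c) →
      ((Finset.univ.filter (fun x : V => (l.map (fun q => q.2 x)).prod = 1 ∧
        ∃ v', P.rel x a ks.sum v v' ∧ P.acc v')).card : ℝ) ≤
        w ^ ks.length * β * Fintype.card V := by
  have hV : (0 : ℝ) < Fintype.card V := by
    have : 0 < Fintype.card V := Fintype.card_pos
    exact_mod_cast this
  intro ks
  induction ks with
  | nil =>
    intro _ a v l hl hq hc
    have h0 := hβ l (by simpa using hl) (fun q hq' => by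
      obtain ⟨h1, h2, h3⟩ := hq q hq'
      refine ⟨h1, fun x => ?_, h3⟩
      rcases h2 x with h | h
      · rw [h]; norm_num
      · rw [h]; norm_num)
    have hβ0 : 0 ≤ β := (abs_nonneg _).trans h0
    rw [List.length_nil, pow_zero, one_mul]
    set S := Finset.univ.filter (fun x : V => (l.map (fun q => q.2 x)).prod = 1 ∧
        ∃ v', P.rel x a ([] : List ℕ).sum v v' ∧ P.acc v') with hS
    have hrel : ∀ x, (∃ v', P.rel x a ([] : List ℕ).sum v v' ∧ P.acc v') ↔ P.acc v := by
      intro x
      constructor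
      · rintro ⟨v', h1, h2⟩
        have h1' : v = v' := h1
        rw [h1']
        exact h2
      · intro h
        exact ⟨v, rfl, h⟩
    rcases S.eq_empty_or_nonempty with hE | ⟨x0, hx0⟩
    · rw [hE, Finset.card_empty, Nat.cast_zero]
      positivity
    · have hx0' := (Finset.mem_filter.1 hx0).2
      have hacc : P.acc v := (hrel x0).1 hx0'.2
      have hc1 : |c| = 1 := by
        rw [← hc x0 hx0'.1 hx0'.2]
        rcases hf x0 with h | h <;> rw [h] <;> norm_num
      have hsum : ∑ x, f x * (l.map (fun q => q.2 x)).prod = c * S.card := by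
        rw [← Finset.sum_subset (Finset.subset_univ S)]
        · rw [Finset.sum_congr rfl (g := fun _ => c)]
          · rw [Finset.sum_const, nsmul_eq_mul, mul_comm]
          · intro x hx
            have hx' := (Finset.mem_filter.1 hx).2
            rw [hc x hx'.1 hx'.2, hx'.1, mul_one]
        · intro x _ hx
          rcases prod01 l (fun q hq' => (hq q hq').2.1) x with h | h
          · rw [h, mul_zero]
          · exact absurd (Finset.mem_filter.2 ⟨Finset.mem_univ x, h, (hrel x).2 hacc⟩) hx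
      unfold ex at h0
      rw [hsum, abs_div, abs_mul, hc1, one_mul, Nat.abs_cast, Nat.abs_cast,
        div_le_iff₀ hV] at h0
      exact h0
  | cons k ks ih =>
    intro hks a v l hl hq hc
    have hsplit : ∀ x, (∃ v', P.rel x a (k :: ks).sum v v' ∧ P.acc v') ↔
        ∃ u, P.rel x a k v u ∧ ∃ v', P.rel x (a + k) ks.sum u v' ∧ P.acc v' := by
      intro x
      rw [List.sum_cons]
      simp only [rel_add]
      constructor
      · rintro ⟨v', ⟨u, h1, h2⟩, h3⟩
        exact ⟨u, h1, v', h2, h3⟩
      · rintro ⟨u, h1, v', h2, h3⟩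
        exact ⟨v', ⟨u, h1, h2⟩, h3⟩
    let φ : Fin w → V → ℝ := fun u x => if P.rel x a k v u then 1 else 0
    have hφ1 : ∀ u x, φ u x = 1 ↔ P.rel x a k v u := by
      intro u x
      by_cases h : P.rel x a k v u
      · simp [φ, h]
      · simp [φ, h]
    have hφ01 : ∀ u x, φ u x = 0 ∨ φ u x = 1 := by
      intro u x
      by_cases h : P.rel x a k v u
      · right; simp [φ, h]
      · left; simp [φ, h]
    have hprod : ∀ u x, ((((ker P a k, φ u) :: l).map (fun q => q.2 x)).prod = 1 ↔
        P.rel x a k v u ∧ (l.map (fun q => q.2 x)).prod = 1) := by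
      intro u x
      rw [List.map_cons, List.prod_cons, ← hφ1]
      show φ u x * _ = 1 ↔ _
      rcases hφ01 u x with h | h <;>
        rcases prod01 l (fun q hq' => (hq q hq').2.1) x with h' | h' <;> rw [h, h'] <;> simp
    have hu : ∀ u : Fin w, ((Finset.univ.filter (fun x : V =>
        (((ker P a k, φ u) :: l).map (fun q => q.2 x)).prod = 1 ∧
        ∃ v', P.rel x (a + k) ks.sum u v' ∧ P.acc v')).card : ℝ) ≤
        w ^ ks.length * β * Fintype.card V := by
      intro u
      refine ih (fun k' hk' => hks k' (by simp [hk'])) (a + k) u ((ker P a k, φ u) :: l) ?_ ?_ ?_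
      · rw [List.length_cons] at hl ⊢
        omega
      · intro q hq'
        rcases List.mem_cons.1 hq' with rfl | hq'
        · refine ⟨card_ker P a k hn hmd (hks k (by simp)), hφ01 u, ?_⟩
          intro z hz x
          show φ u (x + z) = φ u x
          have := rel_congr P a v u k (form_add P hz x)
          by_cases h : P.rel x a k v u
          · rw [(hφ1 u x).2 h, (hφ1 u (x + z)).2 (this.2 h)]
          · have h' : ¬ P.rel (x + z) a k v u := fun h2 => h (this.1 h2)
            simp [φ, h, h']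
        · exact hq q hq'
      · intro x h1 h2
        rw [hprod] at h1
        exact hc x h1.2 ((hsplit x).2 ⟨u, h1.1, h2⟩)
    have hsub : Finset.univ.filter (fun x : V => (l.map (fun q => q.2 x)).prod = 1 ∧
        ∃ v', P.rel x a (k :: ks).sum v v' ∧ P.acc v') ⊆
        Finset.univ.biUnion (fun u : Fin w => Finset.univ.filter (fun x : V =>
          (((ker P a k, φ u) :: l).map (fun q => q.2 x)).prod = 1 ∧
          ∃ v', P.rel x (a + k) ks.sum u v' ∧ P.acc v')) := by
      intro x hx
      obtain ⟨-, h1, h2⟩ := Finset.mem_filter.1 hx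
      obtain ⟨u, h3, h4⟩ := (hsplit x).1 h2
      exact Finset.mem_biUnion.2 ⟨u, Finset.mem_univ u,
        Finset.mem_filter.2 ⟨Finset.mem_univ x, (hprod u x).2 ⟨h3, h1⟩, h4⟩⟩
    have hcard := (Finset.card_le_card hsub).trans Finset.card_biUnion_le
    calc _ ≤ ((∑ u : Fin w, (Finset.univ.filter (fun x : V =>
          (((ker P a k, φ u) :: l).map (fun q => q.2 x)).prod = 1 ∧
          ∃ v', P.rel x (a + k) ks.sum u v' ∧ P.acc v')).card : ℕ) : ℝ) := by
            exact_mod_cast hcard
      _ = ∑ u : Fin w, ((Finset.univ.filter (fun x : V =>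
          (((ker P a k, φ u) :: l).map (fun q => q.2 x)).prod = 1 ∧
          ∃ v', P.rel x (a + k) ks.sum u v' ∧ P.acc v')).card : ℝ) := by push_cast; rfl
      _ ≤ ∑ _u : Fin w, (w ^ ks.length * β * Fintype.card V : ℝ) :=
          Finset.sum_le_sum fun u _ => hu u
      _ = w ^ (k :: ks).length * β * Fintype.card V := by
          rw [Finset.sum_const, nsmul_eq_mul, Finset.card_univ, Fintype.card_fin,
            List.length_cons, pow_succ]
          ring

end

section
variable {V : Type} [AddCommGroup V] [Module (ZMod 2) V] [Fintype V]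

/-- NPR: nondeterministic programs. -/
theorem nprog (n r m d w L : ℕ) (hn : Module.finrank (ZMod 2) V = n) (hmd : m + d ≤ n)
    (hL : L ≤ r * m) (f : V → ℝ) (hf : ∀ x, f x = 1 ∨ f x = -1) (β : ℝ)
    (hβ : ∀ l : List (Submodule (ZMod 2) V × (V → ℝ)), l.length = r →
      (∀ q ∈ l, 2 ^ d ≤ Nat.card q.1 ∧ (∀ x, |q.2 x| ≤ 1) ∧
        ∀ u ∈ q.1, ∀ x, q.2 (x + u) = q.2 x) →
      |ex (fun x => f x * (l.map (fun q => q.2 x)).prod)| ≤ β)
    (P : Prog V w) (c : ℝ) (hP : ∀ x, P.Accepts L x ↔ f x = c) :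
    (Nat.card {x : V // f x = c} : ℝ) ≤ w ^ r * β * Nat.card V := by
  classical
  obtain ⟨ks, h1, h2, h3⟩ := exists_ks m r L hL
  have h4 := main hn hmd f hf β hβ P c ks h2 0 P.start [] (by simp [h1]) (by simp) (by
    intro x _ h
    rw [h3] at h
    exact (hP x).1 h)
  rw [h1, h3] at h4
  rw [Nat.card_eq_fintype_card, Nat.card_eq_fintype_card, Fintype.card_subtype]
  refine le_trans (le_of_eq ?_) h4
  congr 2
  ext x
  simp only [Finset.mem_filter, Finset.mem_univ, true_and, List.map_nil, List.prod_nil]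
  exact (hP x).symm

end

end Pool.Agent.H657R5.TaskNPR
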