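import Mathlib
import Pool.Agent.H657R5.Defs
import Pool.Agent.H657R5.TaskCS
import Pool.Agent.H657R5.TaskGOW
import Pool.Agent.H657R5.TaskDER
import Pool.Agent.H657R5.TaskDEG
import Pool.Agent.H657R5.TaskCNT
import Pool.Agent.H657R5.TaskNPR
import Pool.Agent.H657R5.TaskDPR

set_option autoImplicit false

namespace Pool.Agent.H657R5


lemma sg_eq (a : ZMod 2) : sg a = 1 ∨ sg a = -1 := by
  unfold sg
  split_ifs <;> simp

lemma abs_sg (a : ZMod 2) : |sg a| = 1 := by
  rcases sg_eq a with h | h <;> simp [h]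

lemma sg_inj {a b : ZMod 2} : sg a = sg b ↔ a = b := by
  have h1 : ∀ a : ZMod 2, a ≠ 0 → a = 1 := by decide
  constructor
  · intro h
    unfold sg at h
    by_cases ha : a = 0 <;> by_cases hb : b = 0
    · rw [ha, hb]
    · rw [if_pos ha, if_neg hb] at h
      norm_num at h
    · rw [if_neg ha, if_pos hb] at h
      norm_num at h
    · rw [h1 a ha, h1 b hb]
  · intro h
    rw [h]

lemma abs_ex_sg_le {V : Type} [Fintype V] [Nonempty V] (q : V → ZMod 2) :
    |ex (fun x => sg (q x))| ≤ 1 := by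
  unfold ex
  have hc : (0 : ℝ) < Fintype.card V := by
    have := Fintype.card_pos (α := V)
    positivity
  rw [abs_div, abs_of_pos hc, div_le_one hc]
  calc |∑ x, sg (q x)| ≤ ∑ x, |sg (q x)| := Finset.abs_sum_le_sum_abs _ _
    _ = ∑ _x : V, (1 : ℝ) := by simp only [abs_sg]
    _ = _ := by simp

section
variable {K : Type} [Field K] [Fintype K] [Algebra (ZMod 2) K]

/-- the power of the correlation of the hard function with a product of invariant functions -/
theorem corr_pow (r d : ℕ) (hr : 1 ≤ r) (l : List (Submodule (ZMod 2) K × (K → ℝ)))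
    (hl : l.length = r)
    (h : ∀ q ∈ l, 2 ^ d ≤ Nat.card q.1 ∧ (∀ x, |q.2 x| ≤ 1) ∧
        ∀ u ∈ q.1, ∀ x, q.2 (x + u) = q.2 x) :
    |ex (fun x : K => sg (hard r x) * (l.map (fun q => q.2 x)).prod)| ^ (2 ^ r)
      ≤ 2 ^ (2 * r + 1) / 2 ^ d := by
  classical
  have h1 := TaskCS.core l (fun x => sg (hard r x)) (fun q hq => (h q hq).2)
  rw [hl] at h1
  refine le_trans h1 ?_
  rw [TaskGOW.gow_sg]
  have h2 := TaskCNT.av_qd (K := K) r d hr (l.map Prod.fst) (by simp [hl])
    (by
      intro U hU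
      obtain ⟨q, hq, rfl⟩ := List.mem_map.1 hU
      exact (h q hq).1)
  refine le_trans ?_ h2
  apply TaskGOW.av_mono
  intro us hus
  have hus' : us.length = r := by simpa [hl] using hus
  by_cases h0 : qd r us = 0
  · rw [if_pos h0]
    exact abs_ex_sg_le _
  · rw [if_neg h0, TaskDEG.ex_hard TaskDER.dds_pw r us hus' h0]
    simp

/-- the correlation bound -/
noncomputable def beta (r d : ℕ) : ℝ := (2 ^ (2 * r + 1) / 2 ^ d : ℝ) ^ ((((2 ^ r : ℕ) : ℝ))⁻¹)

lemma beta_nonneg (r d : ℕ) : 0 ≤ beta r d := by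
  unfold beta
  positivity

lemma beta_pow (r d : ℕ) : beta r d ^ (2 ^ r) = 2 ^ (2 * r + 1) / 2 ^ d := by
  unfold beta
  rw [Real.rpow_inv_natCast_pow (by positivity) (by positivity)]

theorem corr (r d : ℕ) (hr : 1 ≤ r) (l : List (Submodule (ZMod 2) K × (K → ℝ)))
    (hl : l.length = r)
    (h : ∀ q ∈ l, 2 ^ d ≤ Nat.card q.1 ∧ (∀ x, |q.2 x| ≤ 1) ∧
        ∀ u ∈ q.1, ∀ x, q.2 (x + u) = q.2 x) :
    |ex (fun x : K => sg (hard r x) * (l.map (fun q => q.2 x)).prod)| ≤ beta r d := by
  have h1 := corr_pow r d hr l hl h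
  rw [← beta_pow] at h1
  exact le_of_pow_le_pow_left₀ (by positivity) (beta_nonneg r d) h1

/-- nondeterministic programs -/
theorem ndet (n r m d w L : ℕ) (hn : Module.finrank (ZMod 2) K = n) (hr : 1 ≤ r)
    (hmd : m + d ≤ n) (hL : L ≤ r * m) (b : ZMod 2) (P : Prog K w)
    (hP : ∀ x, P.Accepts L x ↔ hard r x = b) :
    2 ^ d ≤ (2 * w ^ r + 1) ^ (2 ^ r) * 2 ^ (2 * r + 1) := by
  classical
  have hcard : (Nat.card K : ℝ) = Fintype.card K := by rw [Nat.card_eq_fintype_card]
  have hc : (0 : ℝ) < Fintype.card K := by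
    have := Fintype.card_pos (α := K)
    positivity
  have h1 := TaskNPR.nprog (V := K) n r m d w L hn hmd hL (fun x => sg (hard r x))
    (fun x => sg_eq _) (beta r d) (fun l hl h => corr r d hr l hl h) P (sg b)
    (fun x => by rw [hP x, sg_inj])
  set N : ℝ := (Nat.card {x : K // sg (hard r x) = sg b} : ℝ) with hN
  have hdle : 2 ^ d ≤ Nat.card (⊤ : Submodule (ZMod 2) K) := by
    rw [Nat.card_congr (Submodule.topEquiv (R := ZMod 2) (M := K)).toEquiv,
      Nat.card_eq_fintype_card, Module.card_eq_pow_finrank (K := ZMod 2) (V := K), hn, ZMod.card]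
    exact Nat.pow_le_pow_right (by norm_num) (by omega)
  have h2 := corr (K := K) r d hr (List.replicate r (⊤, fun _ => 1)) (by simp)
    (by
      intro q hq
      have := List.eq_of_mem_replicate hq
      subst this
      exact ⟨hdle, by simp, by simp⟩)
  have h3 : (fun x : K => sg (hard r x) *
      ((List.replicate r ((⊤ : Submodule (ZMod 2) K), (fun _ : K => (1 : ℝ)))).map
        (fun q => q.2 x)).prod) = fun x => sg (hard r x) := by
    funext x
    simp
  rw [h3] at h2
  have h4 : ∑ x : K, sg (hard r x) = sg b * (2 * N - Fintype.card K) := by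
    have e1 : ∀ x : K, sg (hard r x)
        = sg b * (2 * (if sg (hard r x) = sg b then (1 : ℝ) else 0) - 1) := by
      intro x
      rcases sg_eq (hard r x) with h | h <;> rcases sg_eq b with h' | h' <;>
        simp [h, h'] <;> norm_num
    have e2 : N = ∑ x : K, (if sg (hard r x) = sg b then (1 : ℝ) else 0) := by
      rw [hN, Nat.card_eq_fintype_card, Fintype.card_subtype, Finset.sum_ite]
      simp
    calc ∑ x : K, sg (hard r x)
        = ∑ x : K, sg b * (2 * (if sg (hard r x) = sg b then (1 : ℝ) else 0) - 1) :=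
          Finset.sum_congr rfl (fun x _ => e1 x)
      _ = _ := by
          rw [← Finset.mul_sum, Finset.sum_sub_distrib, ← Finset.mul_sum, ← e2]
          simp
  have h5 : |2 * N - Fintype.card K| ≤ beta r d * Fintype.card K := by
    unfold ex at h2
    rw [h4, abs_div, abs_mul, abs_sg, one_mul, abs_of_pos hc, div_le_iff₀ hc] at h2
    exact h2
  have h6 : (Fintype.card K : ℝ) ≤ 2 * N + beta r d * Fintype.card K := by
    have := (abs_le.1 h5).1
    linarith
  rw [hcard] at h1
  have h7 : (Fintype.card K : ℝ) * 1 ≤ Fintype.card K * ((2 * (w : ℝ) ^ r + 1) * beta r d) := by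
    nlinarith
  have h8 : 1 ≤ (2 * (w : ℝ) ^ r + 1) * beta r d := le_of_mul_le_mul_left h7 hc
  have h9 : 1 ≤ ((2 * (w : ℝ) ^ r + 1) * beta r d) ^ (2 ^ r) := one_le_pow₀ h8
  rw [mul_pow, beta_pow, ← mul_div_assoc, le_div_iff₀ (by positivity), one_mul] at h9
  exact_mod_cast h9

/-- deterministic programs, average case -/
theorem det (n r m d w L : ℕ) (hn : Module.finrank (ZMod 2) K = n) (hr : 1 ≤ r)
    (hmd : m + d ≤ n) (hL : L ≤ r * m) (P : DProg K w) :
    |2 * (Nat.card {x : K // P.output L x = hard r x} : ℝ) - Nat.card K| ^ (2 ^ r) * 2 ^ d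
      ≤ (w ^ r * Nat.card K) ^ (2 ^ r) * 2 ^ (2 * r + 1) := by
  classical
  have hcard : (Nat.card K : ℝ) = Fintype.card K := by rw [Nat.card_eq_fintype_card]
  have hc : (0 : ℝ) < Fintype.card K := by
    have := Fintype.card_pos (α := K)
    positivity
  have h1 := TaskDPR.dprog (V := K) n r m d w L hn hmd hL (fun x => sg (hard r x))
    (beta r d) (fun l hl h => corr r d hr l hl h) P
  have h4 : ∑ x : K, sg (hard r x) * sg (P.output L x)
      = 2 * (Nat.card {x : K // P.output L x = hard r x} : ℝ) - Fintype.card K := by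
    have e1 : ∀ x : K, sg (hard r x) * sg (P.output L x)
        = 2 * (if P.output L x = hard r x then (1 : ℝ) else 0) - 1 := by
      intro x
      by_cases h : P.output L x = hard r x
      · rw [if_pos h, h]
        rcases sg_eq (hard r x) with h' | h' <;> rw [h'] <;> norm_num
      · rw [if_neg h]
        have h' : sg (P.output L x) ≠ sg (hard r x) := fun e => h (sg_inj.1 e)
        rcases sg_eq (hard r x) with h1 | h1 <;> rcases sg_eq (P.output L x) with h2 | h2 <;>
          rw [h1, h2] at h' ⊢ <;> first | exact absurd rfl h' | norm_num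
    have e2 : (Nat.card {x : K // P.output L x = hard r x} : ℝ)
        = ∑ x : K, (if P.output L x = hard r x then (1 : ℝ) else 0) := by
      rw [Nat.card_eq_fintype_card, Fintype.card_subtype, Finset.sum_ite]
      simp
    rw [Finset.sum_congr rfl (fun x _ => e1 x), Finset.sum_sub_distrib, ← Finset.mul_sum, ← e2]
    simp
  unfold ex at h1
  rw [h4, abs_div, abs_of_pos hc, div_le_iff₀ hc] at h1
  have h5 := pow_le_pow_left₀ (abs_nonneg _) h1 (2 ^ r)
  rw [hcard]
  calc _ ≤ ((w : ℝ) ^ r * beta r d * Fintype.card K) ^ 2 ^ r * 2 ^ d :=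
        mul_le_mul_of_nonneg_right h5 (by positivity)
    _ = (w ^ r * Fintype.card K) ^ (2 ^ r) * (beta r d ^ 2 ^ r * 2 ^ d) := by ring
    _ = _ := by
        rw [beta_pow, div_mul_cancel₀]
        positivity

end

end Pool.Agent.H657R5
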