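import Mathlib

set_option autoImplicit false

namespace Pool.Agent.H657R5.TaskASY

open Filter Topology

theorem asy (ε : ℝ) (h0 : 0 < ε) (h1 : ε < 1) : ∃ δ : ℝ, 0 < δ ∧ ∃ n0 : ℕ, ∀ n ≥ n0,
    ∀ r L w : ℕ, r = ⌈(1 - ε / 2) * Real.logb 2 n⌉₊ → (L : ℝ) ≤ (1 - ε) * n * Real.logb 2 n →
    (∀ m d : ℕ, m + d ≤ n → L ≤ r * m → 2 ^ d ≤ (2 * w ^ r + 1) ^ (2 ^ r) * 2 ^ (2 * r + 1)) →
    (2 : ℝ) ^ ((n : ℝ) ^ δ) ≤ w := by
  have hlog2 : 0 < Real.log 2 := Real.log_pos one_lt_two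
  have ha : ∀ᶠ n : ℕ in atTop, 2 / ε ≤ Real.logb 2 n :=
    ((Real.tendsto_logb_atTop (b := 2) one_lt_two).comp
      tendsto_natCast_atTop_atTop).eventually_ge_atTop _
  have hb : ∀ᶠ n : ℕ in atTop, Real.logb 2 n ≤ (n : ℝ) ^ (ε / 8) := by
    have h := (isLittleO_log_rpow_atTop (by positivity : 0 < ε / 8)).bound hlog2
    filter_upwards [tendsto_natCast_atTop_atTop.eventually h, eventually_ge_atTop 1] with n hn hn1
    rw [Real.logb, div_le_iff₀ hlog2]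
    have hn2 : (0 : ℝ) ≤ (n : ℝ) ^ (ε / 8) := by positivity
    rw [Real.norm_eq_abs, Real.norm_eq_abs, abs_of_nonneg hn2] at hn
    have := le_abs_self (Real.log (n : ℝ))
    linarith
  have hc : ∀ᶠ n : ℕ in atTop, 20 / ε < (n : ℝ) ^ (ε / 8) :=
    ((tendsto_rpow_atTop (by positivity : 0 < ε / 8)).comp
      tendsto_natCast_atTop_atTop).eventually_gt_atTop _
  have hd : ∀ᶠ n : ℕ in atTop, 2 / ε ≤ (n : ℝ) := tendsto_natCast_atTop_atTop.eventually_ge_atTop _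
  obtain ⟨n0, hn0⟩ := eventually_atTop.1 ((ha.and hb).and ((hc.and hd).and (eventually_ge_atTop 1)))
  refine ⟨ε / 4, by positivity, n0, fun n hn r L w hr hL hyp => ?_⟩
  obtain ⟨⟨ha, hb⟩, ⟨hc, hd⟩, hn1⟩ := hn0 n hn
  clear hn0 hn
  by_contra hw
  rw [not_le] at hw
  set l : ℝ := Real.logb 2 n with hl
  have hn1' : (1 : ℝ) ≤ n := by exact_mod_cast hn1
  have hnpos : (0 : ℝ) < n := by linarith
  have hε2 : (2 : ℝ) < 2 / ε := by
    rw [lt_div_iff₀ h0]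
    linarith
  have hlpos : 0 < l := by linarith
  have hr1 : (1 - ε / 2) * l ≤ r := by
    rw [hr]
    exact Nat.le_ceil _
  have hr2 : (r : ℝ) < (1 - ε / 2) * l + 1 := by
    rw [hr]
    exact Nat.ceil_lt_add_one (by nlinarith)
  have hεl : 2 ≤ ε * l := by
    rw [div_le_iff₀ h0] at ha
    linarith
  have hr3 : (r : ℝ) ≤ l := by nlinarith
  -- the choice of `m` and `d`
  set m : ℕ := ⌈(1 - ε / 2) * n⌉₊ with hm
  have hm1 : (1 - ε / 2) * n ≤ m := Nat.le_ceil _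
  have hm2 : (m : ℝ) < (1 - ε / 2) * n + 1 := Nat.ceil_lt_add_one (by nlinarith)
  have hεn : 2 ≤ ε * n := by
    rw [div_le_iff₀ h0] at hd
    linarith
  have hmn : m ≤ n := by
    have : (m : ℝ) ≤ n := by nlinarith
    exact_mod_cast this
  have hLm : L ≤ r * m := by
    have h2 : (1 - ε / 2) * l * ((1 - ε / 2) * n) ≤ r * m :=
      mul_le_mul hr1 hm1 (by nlinarith) (by positivity)
    have h3 : (1 - ε) * n * l ≤ (1 - ε / 2) * l * ((1 - ε / 2) * n) := by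
      have : 0 ≤ ε ^ 2 / 4 * (n * l) := by positivity
      nlinarith
    have : (L : ℝ) ≤ ((r * m : ℕ) : ℝ) := by
      push_cast
      linarith
    exact_mod_cast this
  have hmain := hyp m (n - m) (by omega) hLm
  have hdR : ((n - m : ℕ) : ℝ) = n - m := by
    rw [Nat.cast_sub hmn]
  -- real version
  set y : ℝ := (n : ℝ) ^ (ε / 4) with hy
  have hy0 : 0 ≤ y := by positivity
  have hmainR : (2 : ℝ) ^ (n - m) ≤ (2 * (w : ℝ) ^ r + 1) ^ (2 ^ r) * 2 ^ (2 * r + 1) := by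
    exact_mod_cast hmain
  have hW1 : (1 : ℝ) ≤ (2 : ℝ) ^ y := Real.one_le_rpow one_le_two hy0
  have hwr : (w : ℝ) ^ r ≤ (2 : ℝ) ^ ((r : ℝ) * y) := by
    have h2 : (w : ℝ) ^ r ≤ ((2 : ℝ) ^ y) ^ r := by gcongr
    rw [← Real.rpow_natCast, ← Real.rpow_natCast, ← Real.rpow_mul (by norm_num)] at h2
    rw [← Real.rpow_natCast]
    calc _ ≤ _ := h2
      _ = _ := by rw [mul_comm]
  have h4 : 2 * (w : ℝ) ^ r + 1 ≤ (2 : ℝ) ^ (2 + (r : ℝ) * y) := by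
    have h5 : (1 : ℝ) ≤ (2 : ℝ) ^ ((r : ℝ) * y) := Real.one_le_rpow one_le_two (by positivity)
    rw [Real.rpow_add (by norm_num)]
    have h6 : (2 : ℝ) ^ (2 : ℝ) = 4 := by norm_num
    rw [h6]
    linarith
  have h7 : (2 : ℝ) ^ ((n : ℝ) - m) ≤
      (2 : ℝ) ^ ((2 + (r : ℝ) * y) * (2 : ℝ) ^ (r : ℝ) + (2 * r + 1)) := by
    calc (2 : ℝ) ^ ((n : ℝ) - m) = (2 : ℝ) ^ (n - m) := by
          rw [← hdR, Real.rpow_natCast]
      _ ≤ _ := hmainR
      _ ≤ ((2 : ℝ) ^ (2 + (r : ℝ) * y)) ^ (2 ^ r) * 2 ^ (2 * r + 1) := by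
          gcongr
      _ = _ := by
          have e1 : ((2 : ℝ) ^ (2 + (r : ℝ) * y)) ^ (2 ^ r) =
              (2 : ℝ) ^ ((2 + (r : ℝ) * y) * (2 : ℝ) ^ (r : ℝ)) := by
            rw [Real.rpow_mul (by norm_num) (2 + (r : ℝ) * y), Real.rpow_natCast]
            rw [← Real.rpow_natCast ((2 : ℝ) ^ (2 + (r : ℝ) * y))]
            push_cast
            rfl
          have e2 : (2 : ℝ) ^ (2 * r + 1) = (2 : ℝ) ^ (2 * (r : ℝ) + 1) := by
            rw [← Real.rpow_natCast]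
            push_cast
            rfl
          rw [e1, e2]
          exact (Real.rpow_add (by norm_num) _ _).symm
  have h8 : (n : ℝ) - m ≤ (2 + (r : ℝ) * y) * (2 : ℝ) ^ (r : ℝ) + (2 * r + 1) :=
    (Real.rpow_le_rpow_left_iff one_lt_two).1 h7
  -- `2 ^ r ≤ 2 n ^ (1 - ε / 2)`
  have h9 : (2 : ℝ) ^ (r : ℝ) ≤ 2 * (n : ℝ) ^ (1 - ε / 2) := by
    calc (2 : ℝ) ^ (r : ℝ) ≤ (2 : ℝ) ^ ((1 - ε / 2) * l + 1) :=
          Real.rpow_le_rpow_of_exponent_le one_le_two hr2.le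
      _ = ((2 : ℝ) ^ l) ^ (1 - ε / 2) * 2 := by
          rw [Real.rpow_add (by norm_num), Real.rpow_one, mul_comm (1 - ε / 2) l,
            Real.rpow_mul (by norm_num)]
      _ = 2 * (n : ℝ) ^ (1 - ε / 2) := by
          rw [hl, Real.rpow_logb (by norm_num) (by norm_num) hnpos]
          ring
  -- everything in terms of `x = n ^ (ε / 8)`
  set x : ℝ := (n : ℝ) ^ (ε / 8) with hx
  have hx1 : 1 ≤ x := Real.one_le_rpow hn1' (by positivity)
  have hyx : y = x ^ 2 := by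
    rw [hx, hy, ← Real.rpow_natCast, ← Real.rpow_mul hnpos.le]
    congr 1
    push_cast
    ring
  have hry : (r : ℝ) * y ≤ x ^ 3 := by
    rw [hyx]
    have : (r : ℝ) ≤ x := hr3.trans hb
    nlinarith [sq_nonneg x]
  have h10 : 2 + (r : ℝ) * y ≤ 3 * x ^ 3 := by
    have : 1 ≤ x ^ 3 := one_le_pow₀ hx1
    linarith
  have h11 : (2 + (r : ℝ) * y) * (2 : ℝ) ^ (r : ℝ) ≤ 3 * x ^ 3 * (2 * (n : ℝ) ^ (1 - ε / 2)) :=
    mul_le_mul h10 h9 (by positivity) (by positivity)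
  have h12 : x ^ 3 * (n : ℝ) ^ (1 - ε / 2) = (n : ℝ) ^ (1 - ε / 8) := by
    rw [hx, ← Real.rpow_natCast, ← Real.rpow_mul hnpos.le, ← Real.rpow_add hnpos]
    congr 1
    push_cast
    ring
  have h13 : x ≤ (n : ℝ) ^ (1 - ε / 8) :=
    Real.rpow_le_rpow_of_exponent_le hn1' (by linarith)
  have h14 : x * (n : ℝ) ^ (1 - ε / 8) = n := by
    rw [hx, ← Real.rpow_add hnpos]
    have : ε / 8 + (1 - ε / 8) = 1 := by ring
    rw [this, Real.rpow_one]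
  have h15 : (r : ℝ) ≤ x := hr3.trans hb
  set z : ℝ := (n : ℝ) ^ (1 - ε / 8) with hz
  have hz1 : 1 ≤ z := Real.one_le_rpow hn1' (by linarith)
  have h16 : ε * n / 2 - 1 ≤ 6 * z + (2 * x + 1) := by
    have h20 : 3 * x ^ 3 * (2 * (n : ℝ) ^ (1 - ε / 2)) = 6 * z := by
      rw [← h12]
      ring
    rw [h20] at h11
    have h21 : (1 - ε / 2) * (n : ℝ) = n - ε * n / 2 := by ring
    rw [h21] at hm2
    linarith
  have h17 : 20 < ε * x := by
    rw [div_lt_iff₀ h0] at hc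
    linarith
  have h18 : ε * n / 2 = ε * x * z / 2 := by
    rw [← h14]
    ring
  rw [h18] at h16
  have h19 : 20 * z < ε * x * z := mul_lt_mul_of_pos_right h17 (by linarith)
  linarith

end Pool.Agent.H657R5.TaskASY
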