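import Mathlib
import Pool.Agent.H657R5.Defs
import Pool.Agent.H540R2.Circ
import Pool.Agent.H540R2.Build

/-!
# The hard function has circuits of polynomial size and polylogarithmic depth
-/

set_option autoImplicit false

namespace Pool.Agent.H657R5.TaskNC

open Pool.Agent.H540R2 Pool.Agent.H540R2.Circuit Pool.Agent.H657R5

variable {n : ℕ}

/-- some node of depth at most `D` computes `F` -/
def Has (P : Circuit n) (D : ℕ) (F : (Fin n → Bool) → ZMod 2) : Prop :=
  ∃ a : Node n, (∀ j, a.wires j ≠ 0 → j < P.size) ∧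
    (∀ x, a.eval x (P.val x) = decide (F x = 1)) ∧ a.depth P.gateDepth ≤ D

theorem Has.ext {P P' : Circuit n} (h : Ext P P') {D : ℕ} {F : (Fin n → Bool) → ZMod 2}
    (hF : Has P D F) : Has P' D F := by
  obtain ⟨a, h1, h2, h3⟩ := hF
  exact ⟨a, fun j hj => (h1 j hj).trans_le h.1, fun x => by rw [h.node_eval x h1, h2],
    by rw [h.node_depth h1]; exact h3⟩

theorem Has.mono {P : Circuit n} {D D' : ℕ} {F : (Fin n → Bool) → ZMod 2}
    (hF : Has P D F) (hD : D ≤ D') : Has P D' F := by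
  obtain ⟨a, h1, h2, h3⟩ := hF
  exact ⟨a, h1, h2, h3.trans hD⟩

theorem Has.congr {P : Circuit n} {D : ℕ} {F G : (Fin n → Bool) → ZMod 2}
    (hF : Has P D F) (e : ∀ x, F x = G x) : Has P D G := by
  have : F = G := funext e
  subst this
  exact hF

theorem has_const (P : Circuit n) (D : ℕ) (c : ZMod 2) : Has P D (fun _ => c) :=
  ⟨.const (decide (c = 1)), fun _ hj => absurd rfl hj, fun _ => rfl, Nat.zero_le _⟩

theorem has_var (P : Circuit n) (D : ℕ) (i : Fin n) :
    Has P D (fun x => if x i then 1 else 0) := by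
  refine ⟨.var i, fun _ hj => absurd rfl hj, fun x => ?_, Nat.zero_le _⟩
  change x i = decide ((if x i then (1 : ZMod 2) else 0) = 1)
  cases x i <;> decide

/-- combination of two computed functions -/
theorem mk2 (F : Fm 2) (g : ZMod 2 → ZMod 2 → ZMod 2)
    (hg : ∀ a b : ZMod 2, F.eval (fun i => if i = 0 then decide (a = 1) else decide (b = 1)) =
      decide (g a b = 1)) {P : Circuit n} {D : ℕ} {A B : (Fin n → Bool) → ZMod 2}
    (hA : Has P D A) (hB : Has P D B) :
    ∃ P' : Circuit n, Ext P P' ∧ P'.size ≤ P.size + 2 ^ (F.depth + 1) ∧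
      Has P' (D + F.depth + 1) (fun x => g (A x) (B x)) := by
  obtain ⟨a, a1, a2, a3⟩ := hA
  obtain ⟨b, b1, b2, b3⟩ := hB
  obtain ⟨P', e, s, v, d⟩ := Circuit.build F P (fun i : Fin 2 => if i = 0 then a else b) (by
    intro i j hj
    by_cases hi : i = 0
    · rw [if_pos hi] at hj; exact a1 j hj
    · rw [if_neg hi] at hj; exact b1 j hj)
  refine ⟨P', e, by omega, P'.out, P'.out_lt, fun x => ?_, ?_⟩
  · change P'.eval x = _
    rw [v x, ← hg]
    congr 1
    funext i
    by_cases hi : i = 0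
    · rw [if_pos hi, if_pos hi, a2]
    · rw [if_neg hi, if_neg hi, b2]
  · apply d D
    intro i
    by_cases hi : i = 0
    · rw [if_pos hi]; exact a3
    · rw [if_neg hi]; exact b3

theorem mk_add {P : Circuit n} {D : ℕ} {A B : (Fin n → Bool) → ZMod 2}
    (hA : Has P D A) (hB : Has P D B) :
    ∃ P' : Circuit n, Ext P P' ∧ P'.size ≤ P.size + 8 ∧
      Has P' (D + 3) (fun x => A x + B x) := by
  obtain ⟨P', e, s, h⟩ := mk2 (Fm.or (Fm.and (Fm.lit 0 true) (Fm.lit 1 false))
    (Fm.and (Fm.lit 0 false) (Fm.lit 1 true))) (fun a b => a + b) (by decide) hA hB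
  exact ⟨P', e, s, h⟩

theorem mk_mul {P : Circuit n} {D : ℕ} {A B : (Fin n → Bool) → ZMod 2}
    (hA : Has P D A) (hB : Has P D B) :
    ∃ P' : Circuit n, Ext P P' ∧ P'.size ≤ P.size + 4 ∧
      Has P' (D + 2) (fun x => A x * B x) := by
  obtain ⟨P', e, s, h⟩ := mk2 (Fm.and (Fm.lit 0 true) (Fm.lit 1 true)) (fun a b => a * b)
    (by decide) hA hB
  exact ⟨P', e, s, h⟩

/-- parities -/
theorem mk_sum {ι : Type} [DecidableEq ι] (F : ι → (Fin n → Bool) → ZMod 2) (k : ℕ) :
    ∀ (S : Finset ι) (P : Circuit n) (D : ℕ), S.card ≤ 2 ^ k → (∀ i ∈ S, Has P D (F i)) →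
      ∃ P' : Circuit n, Ext P P' ∧ P'.size ≤ P.size + 8 * (2 ^ k - 1) ∧
        Has P' (D + 3 * k) (fun x => ∑ i ∈ S, F i x) := by
  induction k with
  | zero =>
    intro S P D hS hF
    rcases S.eq_empty_or_nonempty with rfl | h
    · exact ⟨P, Ext.refl P, Nat.le_add_right _ _, (has_const P _ 0).congr fun x => by simp⟩
    · have h1 : S.card = 1 := by
        have := h.card_pos
        rw [pow_zero] at hS
        omega
      obtain ⟨i, rfl⟩ := Finset.card_eq_one.1 h1
      exact ⟨P, Ext.refl P, Nat.le_add_right _ _,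
        ((hF i (Finset.mem_singleton_self i)).mono (Nat.le_add_right _ _)).congr
          fun x => by simp⟩
  | succ k ih =>
    intro S P D hS hF
    obtain ⟨S1, hS1, hc1⟩ := Finset.exists_subset_card_eq (s := S) (n := min (2 ^ k) S.card)
      (min_le_right _ _)
    have hc2 : (S \ S1).card ≤ 2 ^ k := by
      rw [Finset.card_sdiff_of_subset hS1, hc1]
      rw [pow_succ] at hS
      omega
    obtain ⟨P1, e1, s1, h1⟩ := ih S1 P D (by rw [hc1]; exact min_le_left _ _)
      fun i hi => hF i (hS1 hi)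
    obtain ⟨P2, e2, s2, h2⟩ := ih (S \ S1) P1 D hc2
      fun i hi => (hF i (Finset.sdiff_subset hi)).ext e1
    obtain ⟨P3, e3, s3, h3⟩ := mk_add h2 (h1.ext e2)
    refine ⟨P3, (e1.trans e2).trans e3, ?_, ?_⟩
    · have := Nat.one_le_two_pow (n := k)
      rw [pow_succ]
      omega
    · refine (h3.mono (by omega)).congr fun x => ?_
      exact Finset.sum_sdiff hS1

/-- many functions one after the other -/
theorem mk_all {ι : Type} [DecidableEq ι] (Q : ι → Circuit n → Prop)
    (hQ : ∀ i P P', Ext P P' → Q i P → Q i P') (s : ℕ) (P : Circuit n) (T : Finset ι)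
    (h : ∀ P', Ext P P' → ∀ i ∈ T, ∃ P'', Ext P' P'' ∧ P''.size ≤ P'.size + s ∧ Q i P'') :
    ∃ P', Ext P P' ∧ P'.size ≤ P.size + T.card * s ∧ ∀ i ∈ T, Q i P' := by
  induction T using Finset.induction_on with
  | empty => exact ⟨P, Ext.refl P, Nat.le_add_right _ _, fun i hi => by simp at hi⟩
  | insert j T hj ih =>
    obtain ⟨P1, e1, s1, h1⟩ := ih fun P' hP' i hi => h P' hP' i (Finset.mem_insert_of_mem hi)
    obtain ⟨P2, e2, s2, h2⟩ := h P1 e1 j (Finset.mem_insert_self j T)
    refine ⟨P2, e1.trans e2, ?_, ?_⟩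
    · rw [Finset.card_insert_of_notMem hj, Nat.add_mul, Nat.one_mul]
      omega
    · intro i hi
      rcases Finset.mem_insert.1 hi with rfl | hi
      · exact h2
      · exact hQ i P1 P2 e2 (h1 i hi)

theorem zmod_sum {ι : Type} (s : Finset ι) (c f : ι → ZMod 2) :
    ∑ i ∈ s, f i * c i = ∑ i ∈ s.filter (fun i => c i = 1), f i := by
  rw [Finset.sum_filter]
  refine Finset.sum_congr rfl fun i _ => ?_
  generalize f i = a
  generalize c i = b
  revert a b
  decide

section
variable {K : Type} [Field K] [Algebra (ZMod 2) K] (b : Module.Basis (Fin n) (ZMod 2) K)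

/-- the coordinates of `f` are computed -/
def HasK (P : Circuit n) (D : ℕ) (f : (Fin n → Bool) → K) : Prop :=
  ∀ l, Has P D (fun x => b.repr (f x) l)

theorem HasK.ext {P P' : Circuit n} (h : Ext P P') {D : ℕ} {f : (Fin n → Bool) → K}
    (hf : HasK b P D f) : HasK b P' D f := fun l => (hf l).ext h

theorem repr_mul (u v : K) (l : Fin n) : b.repr (u * v) l =
    ∑ p ∈ (Finset.univ : Finset (Fin n × Fin n)).filter
      (fun p => b.repr (b p.1 * b p.2) l = 1), b.repr u p.1 * b.repr v p.2 := by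
  rw [← zmod_sum]
  conv_lhs => rw [← b.sum_repr u, ← b.sum_repr v]
  rw [Finset.sum_mul_sum, ← Finset.sum_product', Finset.univ_product_univ, map_sum,
    Finsupp.finsetSum_apply]
  refine Finset.sum_congr rfl fun p _ => ?_
  rw [smul_mul_smul_comm, map_smul, Finsupp.smul_apply, smul_eq_mul]

/-- product of two field elements -/
theorem mk_mulK {P : Circuit n} {D k : ℕ} (hk : n ≤ 2 ^ k) {f g : (Fin n → Bool) → K}
    (hf : HasK b P D f) (hg : HasK b P D g) :
    ∃ P' : Circuit n, Ext P P' ∧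
      P'.size ≤ P.size + (n * n * 4 + n * (8 * (2 ^ (2 * k) - 1))) ∧
      HasK b P' (D + (2 + 3 * (2 * k))) (fun x => f x * g x) := by
  obtain ⟨P1, e1, s1, h1⟩ := mk_all (n := n)
    (fun (p : Fin n × Fin n) P => Has P (D + 2) (fun x => b.repr (f x) p.1 * b.repr (g x) p.2))
    (fun _ _ _ h h' => h'.ext h) 4 P Finset.univ fun P' hP' p _ =>
      mk_mul ((hf p.1).ext hP') ((hg p.2).ext hP')
  obtain ⟨P2, e2, s2, h2⟩ := mk_all (n := n)
    (fun (l : Fin n) P => Has P (D + 2 + 3 * (2 * k)) (fun x => b.repr (f x * g x) l))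
    (fun _ _ _ h h' => h'.ext h) (8 * (2 ^ (2 * k) - 1)) P1 Finset.univ fun P' hP' l _ => by
      obtain ⟨P3, e3, s3, h3⟩ := mk_sum
        (fun (p : Fin n × Fin n) x => b.repr (f x) p.1 * b.repr (g x) p.2) (2 * k)
        (Finset.univ.filter (fun p => b.repr (b p.1 * b p.2) l = 1)) P' (D + 2) (by
          refine (Finset.card_filter_le _ _).trans ?_
          rw [Finset.card_univ, Fintype.card_prod, Fintype.card_fin, two_mul, pow_add]
          exact Nat.mul_le_mul hk hk)
        fun p _ => (h1 p (Finset.mem_univ p)).ext hP'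
      exact ⟨P3, e3, s3, h3.congr fun x => (repr_mul b (f x) (g x) l).symm⟩
  refine ⟨P2, e1.trans e2, ?_, fun l => (h2 l (Finset.mem_univ l)).mono (by omega)⟩
  rw [Finset.card_univ, Fintype.card_prod, Fintype.card_fin] at s1
  rw [Finset.card_univ, Fintype.card_fin] at s2
  omega

/-- products of field elements -/
theorem mk_prodK {ι : Type} [DecidableEq ι] (f : ι → (Fin n → Bool) → K) {k : ℕ}
    (hk : n ≤ 2 ^ k) (m : ℕ) :
    ∀ (S : Finset ι) (P : Circuit n) (D : ℕ), S.card ≤ 2 ^ m → (∀ i ∈ S, HasK b P D (f i)) →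
      ∃ P' : Circuit n, Ext P P' ∧
        P'.size ≤ P.size + (n * n * 4 + n * (8 * (2 ^ (2 * k) - 1))) * (2 ^ m - 1) ∧
        HasK b P' (D + m * (2 + 3 * (2 * k))) (fun x => ∏ i ∈ S, f i x) := by
  induction m with
  | zero =>
    intro S P D hS hF
    rcases S.eq_empty_or_nonempty with rfl | h
    · exact ⟨P, Ext.refl P, Nat.le_add_right _ _, fun l =>
        (has_const P _ (b.repr 1 l)).congr fun x => by simp⟩
    · have h1 : S.card = 1 := by
        have := h.card_pos
        rw [pow_zero] at hS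
        omega
      obtain ⟨i, rfl⟩ := Finset.card_eq_one.1 h1
      exact ⟨P, Ext.refl P, Nat.le_add_right _ _, fun l =>
        ((hF i (Finset.mem_singleton_self i) l).mono (Nat.le_add_right _ _)).congr
          fun x => by simp⟩
  | succ m ih =>
    intro S P D hS hF
    obtain ⟨S1, hS1, hc1⟩ := Finset.exists_subset_card_eq (s := S) (n := min (2 ^ m) S.card)
      (min_le_right _ _)
    have hc2 : (S \ S1).card ≤ 2 ^ m := by
      rw [Finset.card_sdiff_of_subset hS1, hc1]
      rw [pow_succ] at hS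
      omega
    obtain ⟨P1, e1, s1, h1⟩ := ih S1 P D (by rw [hc1]; exact min_le_left _ _)
      fun i hi => hF i (hS1 hi)
    obtain ⟨P2, e2, s2, h2⟩ := ih (S \ S1) P1 D hc2
      fun i hi => (hF i (Finset.sdiff_subset hi)).ext b e1
    obtain ⟨P3, e3, s3, h3⟩ := mk_mulK b hk h2 (h1.ext b e2)
    refine ⟨P3, (e1.trans e2).trans e3, ?_, fun l => ?_⟩
    · generalize n * n * 4 + n * (8 * (2 ^ (2 * k) - 1)) = M at *
      have h4 : 2 ^ (m + 1) - 1 = (2 ^ m - 1) + (2 ^ m - 1) + 1 := by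
        have := Nat.one_le_two_pow (n := m)
        rw [pow_succ]
        omega
      rw [h4, Nat.mul_add, Nat.mul_add, Nat.mul_one]
      omega
    · refine ((h3 l).mono ?_).congr fun x => ?_
      · rw [Nat.add_mul, Nat.one_mul]
        omega
      · exact congrArg (fun z => b.repr z l) (Finset.prod_sdiff hS1)

theorem repr_frob (k : ℕ) (x : Fin n → Bool) (l : Fin n) :
    b.repr ((∑ i, if x i then b i else 0) ^ 2 ^ k) l =
      ∑ i ∈ (Finset.univ : Finset (Fin n)).filter (fun i => b.repr (b i ^ 2 ^ k) l = 1),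
        if x i then 1 else 0 := by
  have : CharP K 2 := charP_of_injective_algebraMap (algebraMap (ZMod 2) K).injective 2
  rw [← zmod_sum, sum_pow_char_pow, map_sum, Finsupp.finsetSum_apply]
  refine Finset.sum_congr rfl fun i _ => ?_
  cases x i with
  | true => simp
  | false => simp

theorem mk_frob {P : Circuit n} {k : ℕ} (hk : n ≤ 2 ^ k) (j : ℕ) :
    ∃ P' : Circuit n, Ext P P' ∧ P'.size ≤ P.size + n * (8 * (2 ^ k - 1)) ∧
      HasK b P' (3 * k) (fun x => (∑ i, if x i then b i else 0) ^ 2 ^ j) := by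
  obtain ⟨P2, e2, s2, h2⟩ := mk_all (n := n)
    (fun (l : Fin n) P => Has P (0 + 3 * k)
      (fun x => b.repr ((∑ i, if x i then b i else 0) ^ 2 ^ j) l))
    (fun _ _ _ h h' => h'.ext h) (8 * (2 ^ k - 1)) P Finset.univ fun P' hP' l _ => by
      obtain ⟨P3, e3, s3, h3⟩ := mk_sum
        (fun (i : Fin n) (x : Fin n → Bool) => if x i then (1 : ZMod 2) else 0) k
        (Finset.univ.filter (fun i => b.repr (b i ^ 2 ^ j) l = 1)) P' 0 (by
          refine (Finset.card_filter_le _ _).trans ?_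
          rw [Finset.card_univ, Fintype.card_fin]
          exact hk)
        fun i _ => has_var P' 0 i
      exact ⟨P3, e3, s3, h3.congr fun x => (repr_frob b j x l).symm⟩
  refine ⟨P2, e2, ?_, fun l => (h2 l (Finset.mem_univ l)).mono (by omega)⟩
  rw [Finset.card_univ, Fintype.card_fin] at s2
  exact s2

theorem tr_eq (z : K) : Algebra.trace (ZMod 2) K z =
    ∑ l ∈ (Finset.univ : Finset (Fin n)).filter
      (fun l => Algebra.trace (ZMod 2) K (b l) = 1), b.repr z l := by
  rw [← zmod_sum]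
  conv_lhs => rw [← b.sum_repr z]
  rw [map_sum]
  refine Finset.sum_congr rfl fun l _ => ?_
  rw [map_smul, smul_eq_mul]

omit [Algebra (ZMod 2) K] in
theorem pow_eq_prod (r : ℕ) (y : K) : y ^ (2 ^ (r + 1) - 1) =
    ∏ j ∈ Finset.range (r + 1), y ^ 2 ^ j := by
  rw [Finset.prod_pow_eq_pow_sum]
  congr 1
  induction r with
  | zero => simp
  | succ r ih =>
    rw [Finset.sum_range_succ, ← ih]
    have := Nat.one_le_two_pow (n := r + 1)
    rw [pow_succ 2 (r + 1)]
    omega

theorem nc_aux {k m : ℕ} (hk : n ≤ 2 ^ k) (r : ℕ) (hm : r + 1 ≤ 2 ^ m) :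
    ∃ C : Circuit n, (∀ x, C.eval x = decide (hard r (∑ i, if x i then b i else 0) = 1)) ∧
      C.size ≤ (r + 1) * (n * (8 * (2 ^ k - 1))) +
        (n * n * 4 + n * (8 * (2 ^ (2 * k) - 1))) * (2 ^ m - 1) + 8 * (2 ^ k - 1) ∧
      C.depth ≤ 3 * k + m * (2 + 3 * (2 * k)) + 3 * k := by
  obtain ⟨P1, e1, s1, h1⟩ := mk_all (n := n)
    (fun (j : ℕ) P => HasK b P (3 * k) (fun x => (∑ i, if x i then b i else 0) ^ 2 ^ j))
    (fun _ _ _ h h' => h'.ext b h) (n * (8 * (2 ^ k - 1))) (Circuit.empty n)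
    (Finset.range (r + 1)) fun P' _ j _ => mk_frob b hk j
  obtain ⟨P2, e2, s2, h2⟩ := mk_prodK b
    (fun (j : ℕ) (x : Fin n → Bool) => (∑ i, if x i then b i else 0) ^ 2 ^ j) hk m
    (Finset.range (r + 1)) P1 (3 * k) (by rw [Finset.card_range]; exact hm) h1
  obtain ⟨P3, e3, s3, a, a1, a2, a3⟩ := mk_sum
    (fun (l : Fin n) (x : Fin n → Bool) => b.repr (∏ j ∈ Finset.range (r + 1),
      (∑ i, if x i then b i else 0) ^ 2 ^ j) l) k
    (Finset.univ.filter (fun l => Algebra.trace (ZMod 2) K (b l) = 1)) P2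
    (3 * k + m * (2 + 3 * (2 * k))) (by
      refine (Finset.card_filter_le _ _).trans ?_
      rw [Finset.card_univ, Fintype.card_fin]
      exact hk)
    fun l _ => h2 l
  refine ⟨P3.setOut a a1, fun x => ?_, ?_, ?_⟩
  · rw [setOut_eval, a2 x]
    unfold hard
    rw [pow_eq_prod, tr_eq b]
  · change P3.size ≤ _
    rw [Finset.card_range] at s1
    have h0 : (Circuit.empty n).size = 0 := rfl
    omega
  · rw [setOut_depth]
    exact a3

end

theorem nc : ∃ c : ℕ, ∀ (n r : ℕ), 1 ≤ n → ∀ (K : Type) [Field K] [Fintype K]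
    [Algebra (ZMod 2) K] (b : Module.Basis (Fin n) (ZMod 2) K),
    ∃ C : Pool.Agent.H540R2.Circuit n,
      (∀ x, C.eval x = decide (hard r (∑ i, if x i then b i else 0) = 1)) ∧
      C.size ≤ c * (r + 1) * (n + 1) ^ 3 ∧
      C.depth ≤ c * (Nat.log 2 (n + 1) + 1) * (Nat.log 2 (r + 1) + 1) := by
  refine ⟨104, fun n r hn K _ _ _ b => ?_⟩
  have hk : n ≤ 2 ^ (Nat.log 2 n + 1) := (Nat.lt_pow_succ_log_self (by norm_num) n).le
  have hm : r + 1 ≤ 2 ^ (Nat.log 2 (r + 1) + 1) :=
    (Nat.lt_pow_succ_log_self (by norm_num) (r + 1)).le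
  obtain ⟨C, h1, h2, h3⟩ := nc_aux b hk r hm
  refine ⟨C, h1, ?_, ?_⟩
  · have k1 : 2 ^ (Nat.log 2 n + 1) ≤ 2 * n := by
      rw [pow_succ]
      have := Nat.pow_log_le_self 2 (x := n) (by omega)
      omega
    have m1 : 2 ^ (Nat.log 2 (r + 1) + 1) ≤ 2 * (r + 1) := by
      rw [pow_succ]
      have := Nat.pow_log_le_self 2 (x := r + 1) (by omega)
      omega
    have k2 : 2 ^ (2 * (Nat.log 2 n + 1)) ≤ 4 * (n * n) := by
      rw [two_mul, pow_add]
      calc _ ≤ (2 * n) * (2 * n) := Nat.mul_le_mul k1 k1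
        _ = _ := by ring
    refine h2.trans ?_
    calc (r + 1) * (n * (8 * (2 ^ (Nat.log 2 n + 1) - 1))) +
        (n * n * 4 + n * (8 * (2 ^ (2 * (Nat.log 2 n + 1)) - 1))) *
          (2 ^ (Nat.log 2 (r + 1) + 1) - 1) + 8 * (2 ^ (Nat.log 2 n + 1) - 1)
        ≤ (r + 1) * (n * (8 * (2 * n))) + (n * n * 4 + n * (8 * (4 * (n * n)))) *
          (2 * (r + 1)) + 8 * (2 * n) := by
          gcongr
          · omega
          · omega
          · omega
          · omega
      _ ≤ 104 * (r + 1) * (n + 1) ^ 3 := by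
          nlinarith [Nat.zero_le (r * n), Nat.zero_le (r * n * n), Nat.zero_le (r * n * n * n),
            Nat.zero_le n, Nat.zero_le (n * n), Nat.zero_le (n * n * n), Nat.zero_le r]
  · refine h3.trans ?_
    have l1 : Nat.log 2 n ≤ Nat.log 2 (n + 1) := Nat.log_mono_right (by omega)
    generalize Nat.log 2 n = a at *
    generalize Nat.log 2 (n + 1) = a' at *
    generalize Nat.log 2 (r + 1) = c at *
    nlinarith [Nat.zero_le (a' * c), Nat.mul_le_mul_right c l1]

end Pool.Agent.H657R5.TaskNC
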