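import Mathlib
import Pool.Agent.H657R5.Defs
import Pool.Agent.H657R5.Main
import Pool.Agent.H657R5.TaskASY
import Pool.Agent.H657R5.TaskNC

/-!
# Bit strings and asymptotics
-/

set_option autoImplicit false

namespace Pool.Agent.H657R5

open Pool.Agent.H540R2

/-- A Boolean string as a vector over the field with two elements. -/
def bits {n : ℕ} (x : Fin n → Bool) : Fin n → ZMod 2 := fun i => if x i then 1 else 0

section
variable {K : Type} [Field K] [Fintype K] [Algebra (ZMod 2) K] {n w : ℕ}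

/-- pull a program back along a linear map -/
def Prog.pull {V W : Type} [AddCommGroup V] [Module (ZMod 2) V] [AddCommGroup W]
    [Module (ZMod 2) W] (P : Prog V w) (e : W →ₗ[ZMod 2] V) : Prog W w where
  form t := (P.form t).comp e
  step := P.step
  start := P.start
  acc := P.acc

lemma pull_rel {V W : Type} [AddCommGroup V] [Module (ZMod 2) V] [AddCommGroup W]
    [Module (ZMod 2) W] (P : Prog V w) (e : W →ₗ[ZMod 2] V) (y : W) (a k : ℕ) :
    ∀ v v', (P.pull e).rel y a k v v' ↔ P.rel (e y) a k v v' := by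
  induction k with
  | zero => intro v v'; rfl
  | succ k ih =>
    intro v v'
    constructor
    · rintro ⟨u, h1, h2⟩
      exact ⟨u, (ih v u).1 h1, h2⟩
    · rintro ⟨u, h1, h2⟩
      exact ⟨u, (ih v u).2 h1, h2⟩

lemma pull_accepts {V W : Type} [AddCommGroup V] [Module (ZMod 2) V] [AddCommGroup W]
    [Module (ZMod 2) W] (P : Prog V w) (e : W →ₗ[ZMod 2] V) (y : W) (L : ℕ) :
    (P.pull e).Accepts L y ↔ P.Accepts L (e y) := by
  constructor
  · rintro ⟨v, h1, h2⟩
    exact ⟨v, (pull_rel P e y 0 L _ v).1 h1, h2⟩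
  · rintro ⟨v, h1, h2⟩
    exact ⟨v, (pull_rel P e y 0 L _ v).2 h1, h2⟩

lemma exists_bits (b : Module.Basis (Fin n) (ZMod 2) K) (y : K) :
    ∃ x : Fin n → Bool, bits x = b.equivFun y ∧ (∑ i, if x i then b i else 0) = y := by
  have h01 : ∀ a : ZMod 2, a = 0 ∨ a = 1 := by decide
  refine ⟨fun i => decide (b.equivFun y i = 1), ?_, ?_⟩
  · funext i
    unfold bits
    rcases h01 (b.equivFun y i) with h | h <;> simp [h]
  · conv_rhs => rw [← b.sum_equivFun y]
    apply Finset.sum_congr rfl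
    intro i _
    rcases h01 (b.equivFun y i) with h | h <;> simp [h]

lemma zmod_two (a : ZMod 2) (c : Bool) : decide (a = 1) = c ↔ a = if c then 1 else 0 := by
  revert a c
  decide

theorem transfer (b : Module.Basis (Fin n) (ZMod 2) K) (P : Prog (Fin n → ZMod 2) w) (L r : ℕ)
    (c : Bool)
    (hP : ∀ x : Fin n → Bool, P.Accepts L (bits x) ↔
      decide (hard r (∑ i, if x i then b i else 0) = 1) = c) (y : K) :
    (P.pull b.equivFun.toLinearMap).Accepts L y ↔ hard r y = if c then 1 else 0 := by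
  obtain ⟨x, h1, h2⟩ := exists_bits b y
  rw [pull_accepts]
  have h3 : (b.equivFun.toLinearMap : K →ₗ[ZMod 2] (Fin n → ZMod 2)) y = bits x := h1.symm
  rw [h3, hP x, h2, zmod_two]

end

/-- the hard function on strings -/
noncomputable def hardS (ε : ℝ) (n : ℕ) (x : Fin n → Bool) : Bool :=
  if h : n ≠ 0 then
    haveI : Fact (Nat.Prime 2) := ⟨Nat.prime_two⟩
    decide (hard (K := GaloisField 2 n) ⌈(1 - ε / 2) * Real.logb 2 n⌉₊
      (∑ i, if x i then (Module.finBasisOfFinrankEq (ZMod 2) (GaloisField 2 n)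
        (GaloisField.finrank 2 h)) i else 0) = 1)
  else false

lemma logb_le (n : ℕ) (h : 1 ≤ n) : Real.logb 2 n ≤ Nat.log 2 n + 1 := by
  have h1 : (n : ℝ) ≤ 2 ^ ((Nat.log 2 n : ℝ) + 1) := by
    have := (Nat.lt_pow_succ_log_self (b := 2) (by norm_num) n).le
    have h2 : ((2 ^ (Nat.log 2 n + 1) : ℕ) : ℝ) = (2 : ℝ) ^ ((Nat.log 2 n : ℝ) + 1) := by
      rw [← Nat.cast_succ, Real.rpow_natCast]
      push_cast
      rfl
    rw [← h2]
    exact_mod_cast this
  have hn : (0 : ℝ) < n := by exact_mod_cast h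
  rw [Real.logb_le_iff_le_rpow (by norm_num) hn]
  exact h1

theorem upper (ε : ℝ) (h0 : 0 < ε) (h1 : ε < 1) :
    ∃ c : ℕ, ∀ n ≥ 1, ∃ C : Circuit n, (∀ x, C.eval x = hardS ε n x) ∧ C.size ≤ n ^ c + c ∧
      C.depth ≤ c * ((Nat.log 2 n + 1) * (Nat.log 2 (Nat.log 2 n + 1) + 1)) := by
  obtain ⟨c, hc⟩ := TaskNC.nc
  refine ⟨24 * c + 5, ?_⟩
  intro n hn
  haveI : Fact (Nat.Prime 2) := ⟨Nat.prime_two⟩
  have hn0 : n ≠ 0 := by omega
  letI : Fintype (GaloisField 2 n) := Fintype.ofFinite _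
  set r := ⌈(1 - ε / 2) * Real.logb 2 n⌉₊ with hr
  obtain ⟨C, e1, e2, e3⟩ := hc n r hn (GaloisField 2 n)
    (Module.finBasisOfFinrankEq (ZMod 2) (GaloisField 2 n) (GaloisField.finrank 2 hn0))
  have hrle : r ≤ Nat.log 2 n + 1 := by
    rw [hr, Nat.ceil_le]
    have hlog : 0 ≤ Real.logb 2 n := Real.logb_nonneg (by norm_num) (by exact_mod_cast hn)
    have := logb_le n hn
    push_cast
    nlinarith
  refine ⟨C, ?_, ?_, ?_⟩
  · intro x
    rw [e1 x]
    unfold hardS
    rw [dif_pos hn0]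
  · refine e2.trans ?_
    have hlog : Nat.log 2 n ≤ n := (Nat.log_lt_self 2 hn0).le
    have hr2 : r + 1 ≤ 3 * n := by omega
    have h2 : n + 1 ≤ 2 * n := by omega
    calc c * (r + 1) * (n + 1) ^ 3 ≤ c * (3 * n) * (2 * n) ^ 3 := by gcongr
      _ = 24 * c * n ^ 4 := by ring
      _ ≤ n ^ (24 * c + 5) + (24 * c + 5) := ?_
    rcases Nat.lt_or_ge n 2 with h3 | h3
    · have h4 : n = 1 := by omega
      subst h4
      simp
      omega
    · have h4 : 24 * c ≤ n ^ (24 * c) :=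
        le_trans (Nat.lt_two_pow_self).le (Nat.pow_le_pow_left h3 _)
      calc 24 * c * n ^ 4 ≤ n ^ (24 * c) * n ^ 4 := Nat.mul_le_mul_right _ h4
        _ = n ^ (24 * c + 4) := (pow_add _ _ _).symm
        _ ≤ n ^ (24 * c + 5) := Nat.pow_le_pow_right (by omega) (by omega)
        _ ≤ _ := Nat.le_add_right _ _
  · refine e3.trans ?_
    have l1 : Nat.log 2 (n + 1) ≤ Nat.log 2 n + 1 := by
      have h2 : n + 1 ≤ n * 2 := by omega
      calc Nat.log 2 (n + 1) ≤ Nat.log 2 (n * 2) := Nat.log_mono_right h2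
        _ = _ := Nat.log_mul_base (by norm_num) hn0
    have l2 : Nat.log 2 (r + 1) ≤ Nat.log 2 (Nat.log 2 n + 1) + 1 := by
      have h2 : r + 1 ≤ (Nat.log 2 n + 1) * 2 := by omega
      calc Nat.log 2 (r + 1) ≤ Nat.log 2 ((Nat.log 2 n + 1) * 2) := Nat.log_mono_right h2
        _ = _ := Nat.log_mul_base (by norm_num) (by omega)
    generalize Nat.log 2 (Nat.log 2 n + 1) = q at *
    generalize Nat.log 2 n = p at *
    calc c * (Nat.log 2 (n + 1) + 1) * (Nat.log 2 (r + 1) + 1)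
        ≤ c * ((p + 1) + 1) * ((q + 1) + 1) := by gcongr
      _ ≤ (24 * c + 5) * ((p + 1) * (q + 1)) := by
        nlinarith [Nat.zero_le (c * p), Nat.zero_le (c * q), Nat.zero_le (c * p * q),
          Nat.zero_le (p * q)]

theorem lower (ε : ℝ) (h0 : 0 < ε) (h1 : ε < 1) :
    ∃ δ : ℝ, 0 < δ ∧ ∃ n₀ : ℕ, ∀ n ≥ n₀, ∀ (L w : ℕ) (P : Prog (Fin n → ZMod 2) w) (c : Bool),
      (∀ x, P.Accepts L (bits x) ↔ hardS ε n x = c) → (L : ℝ) ≤ (1 - ε) * n * Real.logb 2 n →
      (2 : ℝ) ^ ((n : ℝ) ^ δ) ≤ w := by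
  obtain ⟨δ, hδ, n0, hn0⟩ := TaskASY.asy ε h0 h1
  refine ⟨δ, hδ, max n0 2, ?_⟩
  intro n hn L w P c hP hL
  have hn' : n0 ≤ n := le_trans (le_max_left _ _) hn
  have hn2 : 2 ≤ n := le_trans (le_max_right _ _) hn
  haveI : Fact (Nat.Prime 2) := ⟨Nat.prime_two⟩
  have hnn : n ≠ 0 := by omega
  letI : Fintype (GaloisField 2 n) := Fintype.ofFinite _
  refine hn0 n hn' _ L w rfl hL ?_
  intro m d hmd hLm
  have hr1 : 1 ≤ ⌈(1 - ε / 2) * Real.logb 2 n⌉₊ := by
    rw [Nat.one_le_ceil_iff]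
    have : 0 < Real.logb 2 n := Real.logb_pos (by norm_num) (by exact_mod_cast hn2)
    apply mul_pos _ this
    linarith
  refine ndet (K := GaloisField 2 n) n _ m d w L (GaloisField.finrank 2 hnn) hr1 hmd hLm
    (if c then 1 else 0) (P.pull (Module.finBasisOfFinrankEq (ZMod 2) (GaloisField 2 n)
        (GaloisField.finrank 2 hnn)).equivFun.toLinearMap) ?_
  intro y
  apply transfer
  intro x
  rw [hP x]
  unfold hardS
  rw [dif_pos hnn]

end Pool.Agent.H657R5
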