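import Mathlib
import Pool.Agent.H657R5.Defs

set_option autoImplicit false

namespace Pool.Agent.H657R5.Stubs

open Pool.Agent.H657R5

section
variable {V : Type} [AddCommGroup V] [Module (ZMod 2) V] [Fintype V]

/-- CS: Cauchy-Schwarz along subspaces -/
theorem core : ∀ (l : List (Submodule (ZMod 2) V × (V → ℝ))) (f : V → ℝ),
    (∀ q ∈ l, (∀ x, |q.2 x| ≤ 1) ∧ ∀ u ∈ q.1, ∀ x, q.2 (x + u) = q.2 x) →
    |ex (fun x => f x * (l.map (fun q => q.2 x)).prod)| ^ (2 ^ l.length)
      ≤ gow (l.map Prod.fst) f := by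
  sorry

/-- GOW -/
theorem gow_sg (Us : List (Submodule (ZMod 2) V)) (q : V → ZMod 2) :
    gow Us (fun x => sg (q x)) = av Us (fun us => |ex (fun x => sg (dds us q x))|) := by
  sorry

theorem av_mono (Us : List (Submodule (ZMod 2) V)) (h h' : List V → ℝ)
    (hh : ∀ us : List V, us.length = Us.length → h us ≤ h' us) : av Us h ≤ av Us h' := by
  sorry

end

section
variable {K : Type} [Field K] [Fintype K] [Algebra (ZMod 2) K]

/-- DER: iterated derivatives of a product of Frobenius powers -/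
theorem dds_pw (us : List K) (S : Finset ℕ) (h : S.card = us.length) (x : K) :
    dds us (pw S) x = pm us S := by
  sorry

/-- DEG: nondegenerate directions give mean 0 -/
theorem ex_hard (r : ℕ) (us : List K) (h : us.length = r) (hq : qd r us ≠ 0) :
    ex (fun x : K => sg (dds us (hard r) x)) = 0 := by
  sorry

open Classical in
/-- CNT: few degenerate directions -/
theorem av_qd (r d : ℕ) (hr : 1 ≤ r) (Us : List (Submodule (ZMod 2) K)) (hl : Us.length = r)
    (hd : ∀ U ∈ Us, 2 ^ d ≤ Nat.card U) :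
    av Us (fun us => if qd r us = 0 then (1 : ℝ) else 0) ≤ 2 ^ (2 * r + 1) / 2 ^ d := by
  sorry

end

section
variable {V : Type} [AddCommGroup V] [Module (ZMod 2) V] [Fintype V]

/-- NPR: nondeterministic programs. -/
theorem nprog (n r m d w L : ℕ) (hn : Module.finrank (ZMod 2) V = n) (hmd : m + d ≤ n)
    (hL : L ≤ r * m) (f : V → ℝ) (hf : ∀ x, f x = 1 ∨ f x = -1) (β : ℝ)
    (hβ : ∀ l : List (Submodule (ZMod 2) V × (V → ℝ)), l.length = r →
      (∀ q ∈ l, 2 ^ d ≤ Nat.card q.1 ∧ (∀ x, |q.2 x| ≤ 1) ∧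
        ∀ u ∈ q.1, ∀ x, q.2 (x + u) = q.2 x) →
      |ex (fun x => f x * (l.map (fun q => q.2 x)).prod)| ≤ β)
    (P : Prog V w) (c : ℝ) (hP : ∀ x, P.Accepts L x ↔ f x = c) :
    (Nat.card {x : V // f x = c} : ℝ) ≤ w ^ r * β * Nat.card V := by
  sorry

/-- DPR: deterministic programs, average case. -/
theorem dprog (n r m d w L : ℕ) (hn : Module.finrank (ZMod 2) V = n) (hmd : m + d ≤ n)
    (hL : L ≤ r * m) (f : V → ℝ) (β : ℝ)
    (hβ : ∀ l : List (Submodule (ZMod 2) V × (V → ℝ)), l.length = r →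
      (∀ q ∈ l, 2 ^ d ≤ Nat.card q.1 ∧ (∀ x, |q.2 x| ≤ 1) ∧
        ∀ u ∈ q.1, ∀ x, q.2 (x + u) = q.2 x) →
      |ex (fun x => f x * (l.map (fun q => q.2 x)).prod)| ≤ β)
    (P : DProg V w) :
    |ex (fun x => f x * sg (P.output L x))| ≤ w ^ r * β := by
  sorry

end

end Pool.Agent.H657R5.Stubs
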